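import Mathlib

/-!
# Blue cycles through the vertices outside a longest red path

`B` is the blue relation, `v 0, ..., v (p - 1)` a longest red path, `Q` a set of vertices outside the
path. The two ends of the path are joined in blue to each other and to `Q`. The pairs
`v (2 j + 1), v (2 j + 2)` (`j < t`) are used as connectors between the vertices of `Q`.
-/

set_option autoImplicit false
set_option linter.unusedSectionVars false

namespace Pool.Agent.E8helper93.CR

open Finset

/-- The properties of a longest red path that are used for the construction of blue cycles. -/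
structure Conf {V : Type*} (B : V → V → Prop) (Q : Finset V) (v : ℕ → V) (p t : ℕ) : Prop where
  symm : ∀ x y, B x y → B y x
  ht : 2 * t + 2 ≤ p
  inj : ∀ i < p, ∀ j < p, v i = v j → i = j
  disj : ∀ i < p, v i ∉ Q
  se : B (v 0) (v (p - 1))
  su : ∀ u ∈ Q, B (v 0) u
  eu : ∀ u ∈ Q, B (v (p - 1)) u
  h1 : ∀ u ∈ Q, ∀ i, i + 1 < p → B u (v i) ∨ B u (v (i + 1))
  h2 : ∀ u ∈ Q, ∀ u' ∈ Q, u ≠ u' → ∀ i, i + 1 < p → ¬ B u (v i) → ¬ B u' (v (i + 1)) → B u u'
  h3 : ∀ u ∈ Q, ∀ u' ∈ Q, u ≠ u' → ∀ i k, i < k → k + 1 < p →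
    ¬ B u (v i) → ¬ B u' (v (i + 1)) → ¬ B u (v k) → ¬ B u' (v (k + 1)) → False
  h4 : ∀ u ∈ Q, ∀ i, i + 1 < p → ¬ B u (v (i + 1)) → B (v (p - 1)) (v i)
  h4' : ∀ u ∈ Q, ∀ i, i + 1 < p → ¬ B u (v i) → B (v 0) (v (i + 1))
  h5 : ∀ i, 1 ≤ i → i + 2 < p → B (v (p - 1)) (v i) ∨ B (v 0) (v (i + 1))
  h7 : ∀ S ⊆ Q, (∀ x ∈ S, ∀ y ∈ S, x ≠ y → ¬ B x y) → S.card ≤ t + 1

/-- The vertices `x`, `y` have a common blue neighbour among the connectors of colour `j`. -/
def Conn {V : Type*} (B : V → V → Prop) (v : ℕ → V) (j : ℕ) (x y : V) : Prop :=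
  ∃ c, (c = v (2 * j + 1) ∨ c = v (2 * j + 2)) ∧ B x c ∧ B c y

/-- A blue path that starts at `w`, ends at `y`, has `n` further vertices, all of them in `U` or
connectors of the colours in `K`. -/
def BPath {V : Type*} (B : V → V → Prop) (v : ℕ → V) (w : V) (U : Finset V) (K : Finset ℕ)
    (n : ℕ) (y : V) : Prop :=
  ∃ l : List V, (w :: l).Nodup ∧ (w :: l).IsChain B ∧
    (∀ x ∈ l, x ∈ U ∨ ∃ j ∈ K, x = v (2 * j + 1) ∨ x = v (2 * j + 2)) ∧ l.length = n ∧
    (w :: l).getLast? = some y

/-- A blue path that uses all but possibly one of the colours; `n` counts its vertices other than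
the first, and one more if a colour is left out. -/
def Arr {V : Type*} (B : V → V → Prop) (Q : Finset V) (v : ℕ → V) (w : V) (U : Finset V)
    (K : Finset ℕ) (n : ℕ) : Prop :=
  ∃ y ∈ Q, BPath B v w U K n y ∨ ∃ γ ∈ K, ∃ n', n = n' + 1 ∧ BPath B v w U (K.erase γ) n' y

/-- A blue cycle of length `n`. -/
def HasCyc {V : Type*} (B : V → V → Prop) (n : ℕ) : Prop :=
  ∃ (z : V) (l : List V) (z' : V), (z :: l).Nodup ∧ (z :: l).IsChain B ∧ l.length + 1 = n ∧
    (z :: l).getLast? = some z' ∧ B z' z

variable {V : Type*} [DecidableEq V] {B : V → V → Prop} {Q : Finset V} {v : ℕ → V} {p t : ℕ}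

theorem Conn.symm (h : Conf B Q v p t) {j : ℕ} {x y : V} (hc : Conn B v j x y) :
    Conn B v j y x := by
  obtain ⟨c, hc, h1, h2⟩ := hc
  exact ⟨c, hc, h.symm _ _ h2, h.symm _ _ h1⟩

/-- If two vertices have no connector of colour `j`, they see the two connectors in different
ways. -/
theorem bad_of_not_conn (h : Conf B Q v p t) {j : ℕ} (hj : j < t) {u u' : V} (hu : u ∈ Q)
    (hu' : u' ∈ Q) (hc : ¬ Conn B v j u u') :
    (¬ B u (v (2 * j + 1)) ∧ ¬ B u' (v (2 * j + 2))) ∨
      (¬ B u' (v (2 * j + 1)) ∧ ¬ B u (v (2 * j + 2))) := by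
  have ht := h.ht
  have a1 := h.h1 u hu (2 * j + 1) (by omega)
  have a2 := h.h1 u' hu' (2 * j + 1) (by omega)
  have c1 : ¬ (B u (v (2 * j + 1)) ∧ B (v (2 * j + 1)) u') := fun hh => hc ⟨_, Or.inl rfl, hh.1, hh.2⟩
  have c2 : ¬ (B u (v (2 * j + 2)) ∧ B (v (2 * j + 2)) u') := fun hh => hc ⟨_, Or.inr rfl, hh.1, hh.2⟩
  have s1 : B u' (v (2 * j + 1)) → B (v (2 * j + 1)) u' := h.symm _ _
  have s2 : B u' (v (2 * j + 2)) → B (v (2 * j + 2)) u' := h.symm _ _
  have e1 : 2 * j + 1 + 1 = 2 * j + 2 := rfl
  rw [e1] at a1 a2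
  tauto

theorem ne_of_not_conn (h : Conf B Q v p t) {j : ℕ} (hj : j < t) {u u' : V} (hu : u ∈ Q)
    (hu' : u' ∈ Q) (hc : ¬ Conn B v j u u') : u ≠ u' := by
  rintro rfl
  have ht := h.ht
  have a1 := h.h1 u hu (2 * j + 1) (by omega)
  rcases bad_of_not_conn h hj hu hu' hc with hb | hb
  · rcases a1 with a1 | a1
    · exact hb.1 a1
    · exact hb.2 a1
  · rcases a1 with a1 | a1
    · exact hb.1 a1
    · exact hb.2 a1

theorem blue_of_not_conn (h : Conf B Q v p t) {j : ℕ} (hj : j < t) {u u' : V} (hu : u ∈ Q)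
    (hu' : u' ∈ Q) (hc : ¬ Conn B v j u u') : B u u' := by
  have hne := ne_of_not_conn h hj hu hu' hc
  have ht := h.ht
  rcases bad_of_not_conn h hj hu hu' hc with hb | hb
  · exact h.h2 u hu u' hu' hne (2 * j + 1) (by omega) hb.1 hb.2
  · exact h.symm _ _ (h.h2 u' hu' u hu hne.symm (2 * j + 1) (by omega) hb.1 hb.2)

/-- Two colours that fail for the same pair fail with different orientations. -/
theorem opp (h : Conf B Q v p t) {i j : ℕ} (hi : i < t) (hj : j < t) (hij : i ≠ j) {u u' : V}
    (hu : u ∈ Q) (hu' : u' ∈ Q) (hne : u ≠ u')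
    (h1 : ¬ B u (v (2 * i + 1)) ∧ ¬ B u' (v (2 * i + 2)))
    (h2 : ¬ B u (v (2 * j + 1)) ∧ ¬ B u' (v (2 * j + 2))) : False := by
  have ht := h.ht
  rcases lt_or_gt_of_ne hij with hlt | hlt
  · exact h.h3 u hu u' hu' hne (2 * i + 1) (2 * j + 1) (by omega) (by omega) h1.1 h1.2 h2.1 h2.2
  · exact h.h3 u hu u' hu' hne (2 * j + 1) (2 * i + 1) (by omega) (by omega) h2.1 h2.2 h1.1 h1.2

/-- At most two colours fail for a given pair. -/
theorem three (h : Conf B Q v p t) {i j k : ℕ} (hi : i < t) (hj : j < t) (hk : k < t)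
    (hij : i ≠ j) (hik : i ≠ k) (hjk : j ≠ k) {u u' : V} (hu : u ∈ Q) (hu' : u' ∈ Q) :
    Conn B v i u u' ∨ Conn B v j u u' ∨ Conn B v k u u' := by
  by_contra hcon
  push Not at hcon
  obtain ⟨c1, c2, c3⟩ := hcon
  have hne := ne_of_not_conn h hi hu hu' c1
  have b1 := bad_of_not_conn h hi hu hu' c1
  have b2 := bad_of_not_conn h hj hu hu' c2
  have b3 := bad_of_not_conn h hk hu hu' c3
  have o1 := opp h hi hj hij hu hu' hne
  have o2 := opp h hi hk hik hu hu' hne
  have o3 := opp h hj hk hjk hu hu' hne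
  have o1' := opp h hi hj hij hu' hu hne.symm
  have o2' := opp h hi hk hik hu' hu hne.symm
  have o3' := opp h hj hk hjk hu' hu hne.symm
  rcases b1 with b1 | b1 <;> rcases b2 with b2 | b2 <;> rcases b3 with b3 | b3 <;>
    first
    | exact o1 b1 b2
    | exact o2 b1 b3
    | exact o3 b2 b3
    | exact o1' b1 b2
    | exact o2' b1 b3
    | exact o3' b2 b3

/-- If a colour fails for `w, u` and for `w, u'`, then it works for `u, u'`. -/
theorem side (h : Conf B Q v p t) {j : ℕ} (hj : j < t) {w u u' : V} (hw : w ∈ Q) (hu : u ∈ Q)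
    (hu' : u' ∈ Q) (c1 : ¬ Conn B v j w u) (c2 : ¬ Conn B v j w u') : Conn B v j u u' := by
  have ht := h.ht
  by_contra c3
  have b1 := bad_of_not_conn h hj hw hu c1
  have b2 := bad_of_not_conn h hj hw hu' c2
  have b3 := bad_of_not_conn h hj hu hu' c3
  have a1 := h.h1 w hw (2 * j + 1) (by omega)
  have a2 := h.h1 u hu (2 * j + 1) (by omega)
  have a3 := h.h1 u' hu' (2 * j + 1) (by omega)
  have e1 : 2 * j + 1 + 1 = 2 * j + 2 := rfl
  rw [e1] at a1 a2 a3
  tauto

/-- Neighbouring colours do not both fail for the same pair. -/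
theorem adj_col (h : Conf B Q v p t) {j : ℕ} (hj : j + 1 < t) {u u' : V} (hu : u ∈ Q)
    (hu' : u' ∈ Q) : Conn B v j u u' ∨ Conn B v (j + 1) u u' := by
  by_contra hcon
  push Not at hcon
  obtain ⟨c1, c2⟩ := hcon
  have ht := h.ht
  have hne := ne_of_not_conn h (by omega) hu hu' c1
  have b1 := bad_of_not_conn h (by omega) hu hu' c1
  have b2 := bad_of_not_conn h hj hu hu' c2
  have o1 := opp h (i := j) (j := j + 1) (by omega) hj (by omega) hu hu' hne
  have o2 := opp h (i := j) (j := j + 1) (by omega) hj (by omega) hu' hu hne.symm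
  have a1 := h.h1 u hu (2 * j + 2) (by omega)
  have a2 := h.h1 u' hu' (2 * j + 2) (by omega)
  have e1 : 2 * (j + 1) + 1 = 2 * j + 2 + 1 := by ring
  rw [e1] at b2 o1 o2
  tauto

/-- Every colour can be used between a vertex of `Q` and one of the ends of the path. -/
theorem placeable (h : Conf B Q v p t) {j : ℕ} (hj : j < t) {y : V} (hy : y ∈ Q) :
    ∃ c, (c = v (2 * j + 1) ∨ c = v (2 * j + 2)) ∧ B y c ∧ (B c (v 0) ∨ B c (v (p - 1))) := by
  have ht := h.ht
  have a1 := h.h1 y hy (2 * j + 1) (by omega)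
  have a2 := h.h5 (2 * j + 1) (by omega) (by omega)
  have a3 := h.h4 y hy (2 * j + 1) (by omega)
  have a4 := h.h4' y hy (2 * j + 1) (by omega)
  by_cases c1 : B y (v (2 * j + 1))
  · by_cases c2 : B y (v (2 * j + 2))
    · rcases a2 with a2 | a2
      · exact ⟨_, Or.inl rfl, c1, Or.inr (h.symm _ _ a2)⟩
      · exact ⟨_, Or.inr rfl, c2, Or.inl (h.symm _ _ a2)⟩
    · exact ⟨_, Or.inl rfl, c1, Or.inr (h.symm _ _ (a3 c2))⟩
  · rcases a1 with a1 | a1
    · exact absurd a1 c1
    · exact ⟨_, Or.inr rfl, a1, Or.inl (h.symm _ _ (a4 c1))⟩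

theorem BPath.refl (w : V) : BPath B v w ∅ ∅ 0 w :=
  ⟨[], by simp, by simp, by simp, rfl, rfl⟩

theorem BPath.direct (h : Conf B Q v p t) {w u y : V} {U : Finset V} {K : Finset ℕ} {n : ℕ}
    (hw : w ∈ Q) (hwU : w ∉ U) (hK : ∀ j ∈ K, j < t) (hu : u ∈ U) (hb : B w u)
    (hp : BPath B v u (U.erase u) K n y) : BPath B v w U K (n + 1) y := by
  obtain ⟨l, h1, h2, h3, h4, h5⟩ := hp
  have ht := h.ht
  refine ⟨u :: l, ?_, ?_, ?_, by simp [h4], ?_⟩
  · rw [List.nodup_cons]
    refine ⟨?_, h1⟩
    intro hm
    rcases List.mem_cons.1 hm with rfl | hm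
    · exact hwU hu
    · rcases h3 w hm with h3 | ⟨j, hj, h3 | h3⟩
      · exact hwU (Finset.mem_of_mem_erase h3)
      · exact h.disj (2 * j + 1) (by have := hK j hj; omega) (h3 ▸ hw)
      · exact h.disj (2 * j + 2) (by have := hK j hj; omega) (h3 ▸ hw)
  · exact List.IsChain.cons_cons hb h2
  · intro x hx
    rcases List.mem_cons.1 hx with rfl | hx
    · exact Or.inl hu
    · rcases h3 x hx with h3 | h3
      · exact Or.inl (Finset.mem_of_mem_erase h3)
      · exact Or.inr h3
  · rw [List.getLast?_cons_cons]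
    exact h5

theorem BPath.conn (h : Conf B Q v p t) {w u y : V} {U : Finset V} {K : Finset ℕ} {n j : ℕ}
    (hw : w ∈ Q) (hU : U ⊆ Q) (hwU : w ∉ U) (hK : ∀ j ∈ K, j < t) (hu : u ∈ U) (hj : j ∈ K)
    (hc : Conn B v j w u) (hp : BPath B v u (U.erase u) (K.erase j) n y) :
    BPath B v w U K (n + 2) y := by
  obtain ⟨l, h1, h2, h3, h4, h5⟩ := hp
  obtain ⟨c, hc, hc1, hc2⟩ := hc
  have ht := h.ht
  have hjt := hK j hj
  have hcQ : c ∉ Q := by
    rcases hc with rfl | rfl
    · exact h.disj _ (by omega)
    · exact h.disj _ (by omega)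
  have hcK : ∀ i ∈ K.erase j, c ≠ v (2 * i + 1) ∧ c ≠ v (2 * i + 2) := by
    intro i hi
    have hit := hK i (Finset.mem_of_mem_erase hi)
    have hij := (Finset.mem_erase.1 hi).1
    constructor
    · intro he
      rcases hc with rfl | rfl
      · have := h.inj _ (by omega) _ (by omega) he
        omega
      · have := h.inj _ (by omega) _ (by omega) he
        omega
    · intro he
      rcases hc with rfl | rfl
      · have := h.inj _ (by omega) _ (by omega) he
        omega
      · have := h.inj _ (by omega) _ (by omega) he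
        omega
  have hwc : w ≠ c := fun he => hcQ (he ▸ hw)
  have hwv : ∀ i ∈ K, w ≠ v (2 * i + 1) ∧ w ≠ v (2 * i + 2) := by
    intro i hi
    have hit := hK i hi
    exact ⟨fun he => h.disj (2 * i + 1) (by omega) (he ▸ hw),
      fun he => h.disj (2 * i + 2) (by omega) (he ▸ hw)⟩
  refine ⟨c :: u :: l, ?_, ?_, ?_, by simp [h4], ?_⟩
  · rw [List.nodup_cons, List.nodup_cons]
    refine ⟨?_, ?_, h1⟩
    · intro hm
      rcases List.mem_cons.1 hm with he | hm
      · exact hwc he
      rcases List.mem_cons.1 hm with he | hm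
      · exact hwU (he ▸ hu)
      rcases h3 w hm with h3 | ⟨i, hi, h3 | h3⟩
      · exact hwU (Finset.mem_of_mem_erase h3)
      · exact (hwv i (Finset.mem_of_mem_erase hi)).1 h3
      · exact (hwv i (Finset.mem_of_mem_erase hi)).2 h3
    · intro hm
      rcases List.mem_cons.1 hm with he | hm
      · exact hcQ (he ▸ hU hu)
      rcases h3 c hm with h3 | ⟨i, hi, h3 | h3⟩
      · exact hcQ (hU (Finset.mem_of_mem_erase h3))
      · exact (hcK i hi).1 h3
      · exact (hcK i hi).2 h3
  · exact List.IsChain.cons_cons hc1 (List.IsChain.cons_cons hc2 h2)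
  · intro x hx
    rcases List.mem_cons.1 hx with rfl | hx
    · exact Or.inr ⟨j, hj, hc⟩
    rcases List.mem_cons.1 hx with rfl | hx
    · exact Or.inl hu
    rcases h3 x hx with h3 | ⟨i, hi, h3⟩
    · exact Or.inl (Finset.mem_of_mem_erase h3)
    · exact Or.inr ⟨i, Finset.mem_of_mem_erase hi, h3⟩
  · rw [List.getLast?_cons_cons, List.getLast?_cons_cons]
    exact h5

theorem Arr.direct (h : Conf B Q v p t) {w u : V} {U : Finset V} {K : Finset ℕ} {n : ℕ}
    (hw : w ∈ Q) (hwU : w ∉ U) (hK : ∀ j ∈ K, j < t) (hu : u ∈ U) (hb : B w u)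
    (hp : Arr B Q v u (U.erase u) K n) : Arr B Q v w U K (n + 1) := by
  obtain ⟨y, hy, hp⟩ := hp
  refine ⟨y, hy, ?_⟩
  rcases hp with hp | ⟨γ, hγ, n', rfl, hp⟩
  · exact Or.inl (hp.direct h hw hwU hK hu hb)
  · exact Or.inr ⟨γ, hγ, n' + 1, rfl,
      hp.direct h hw hwU (fun j hj => hK j (Finset.mem_of_mem_erase hj)) hu hb⟩

theorem Arr.conn (h : Conf B Q v p t) {w u : V} {U : Finset V} {K : Finset ℕ} {n j : ℕ}
    (hw : w ∈ Q) (hU : U ⊆ Q) (hwU : w ∉ U) (hK : ∀ j ∈ K, j < t) (hu : u ∈ U) (hj : j ∈ K)
    (hc : Conn B v j w u) (hp : Arr B Q v u (U.erase u) (K.erase j) n) :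
    Arr B Q v w U K (n + 2) := by
  obtain ⟨y, hy, hp⟩ := hp
  refine ⟨y, hy, ?_⟩
  rcases hp with hp | ⟨γ, hγ, n', rfl, hp⟩
  · exact Or.inl (hp.conn h hw hU hwU hK hu hj hc)
  · refine Or.inr ⟨γ, Finset.mem_of_mem_erase hγ, n' + 2, rfl, ?_⟩
    rw [Finset.erase_right_comm] at hp
    exact hp.conn h hw hU hwU (fun j hj => hK j (Finset.mem_of_mem_erase hj)) hu
      (Finset.mem_erase.2 ⟨(Finset.mem_erase.1 hγ).1.symm, hj⟩) hc

/-- All colours are used, one for each of the links between the vertices of `Q`. -/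
theorem full1 (h : Conf B Q v p t) : ∀ (n : ℕ) (w : V) (U : Finset V) (K : Finset ℕ),
    w ∈ Q → U ⊆ Q → w ∉ U → (∀ j ∈ K, j < t) → U.card = n → K.card = n →
    Arr B Q v w U K (2 * n) := by
  intro n
  induction n with
  | zero =>
    intro w U K hw hU hwU hK hUn hKn
    rw [Finset.card_eq_zero] at hUn hKn
    subst hUn hKn
    exact ⟨w, hw, Or.inl (BPath.refl w)⟩
  | succ n ih =>
    intro w U K hw hU hwU hK hUn hKn
    by_cases hex : ∃ u ∈ U, ∃ j ∈ K, Conn B v j w u
    · obtain ⟨u, hu, j, hj, hc⟩ := hex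
      refine Arr.conn h hw hU hwU hK hu hj hc ?_
      refine ih u (U.erase u) (K.erase j) (hU hu) ?_ (Finset.notMem_erase u U) ?_ ?_ ?_
      · exact (Finset.erase_subset u U).trans hU
      · exact fun i hi => hK i (Finset.mem_of_mem_erase hi)
      · rw [Finset.card_erase_of_mem hu, hUn]; rfl
      · rw [Finset.card_erase_of_mem hj, hKn]; rfl
    · push Not at hex
      have hK2 : K.card ≤ 2 := by
        by_contra hcon
        obtain ⟨i, hi, j, hj, k, hk, hij, hik, hjk⟩ := Finset.two_lt_card.1 (by omega : 2 < K.card)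
        obtain ⟨u, hu⟩ : U.Nonempty := by rw [← Finset.card_pos]; omega
        rcases three h (hK i hi) (hK j hj) (hK k hk) hij hik hjk hw (hU hu) with hc | hc | hc
        · exact hex u hu i hi hc
        · exact hex u hu j hj hc
        · exact hex u hu k hk hc
      have hn : n = 0 ∨ n = 1 := by omega
      rcases hn with rfl | rfl
      · obtain ⟨u, rfl⟩ := Finset.card_eq_one.1 hUn
        obtain ⟨j, rfl⟩ := Finset.card_eq_one.1 hKn
        have hc := hex u (Finset.mem_singleton_self u) j (Finset.mem_singleton_self j)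
        have huQ : u ∈ Q := hU (Finset.mem_singleton_self u)
        have hb := blue_of_not_conn h (hK j (Finset.mem_singleton_self j)) hw huQ hc
        refine ⟨u, huQ, Or.inr ⟨j, Finset.mem_singleton_self j, 1, rfl, ?_⟩⟩
        refine BPath.direct h hw hwU (fun i hi => hK i (Finset.mem_of_mem_erase hi))
          (Finset.mem_singleton_self u) hb ?_
        rw [Finset.erase_singleton, Finset.erase_singleton]
        exact BPath.refl u
      · obtain ⟨u, u', huu, rfl⟩ := Finset.card_eq_two.1 hUn
        obtain ⟨i, j, hij, rfl⟩ := Finset.card_eq_two.1 hKn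
        have hi : i ∈ ({i, j} : Finset ℕ) := by simp
        have hj : j ∈ ({i, j} : Finset ℕ) := by simp
        have hu : u ∈ ({u, u'} : Finset V) := by simp
        have hu' : u' ∈ ({u, u'} : Finset V) := by simp
        have c1 := hex u hu i hi
        have c2 := hex u' hu' i hi
        have c3 := side h (hK i hi) hw (hU hu) (hU hu') c1 c2
        have hb := blue_of_not_conn h (hK i hi) hw (hU hu) c1
        have e1 : ({i, j} : Finset ℕ).erase j = {i} := by
          ext x; simp only [Finset.mem_erase, Finset.mem_insert, Finset.mem_singleton]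
          constructor
          · rintro ⟨a, b | b⟩
            · exact b
            · exact absurd b a
          · rintro rfl; exact ⟨hij, Or.inl rfl⟩
        have e2 : ({u, u'} : Finset V).erase u = {u'} := by
          ext x; simp only [Finset.mem_erase, Finset.mem_insert, Finset.mem_singleton]
          constructor
          · rintro ⟨a, b | b⟩
            · exact absurd b a
            · exact b
          · rintro rfl; exact ⟨huu.symm, Or.inr rfl⟩
        refine ⟨u', hU hu', Or.inr ⟨j, hj, 3, rfl, ?_⟩⟩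
        refine BPath.direct h hw hwU (fun i hi => hK i (Finset.mem_of_mem_erase hi)) hu hb ?_
        rw [e1, e2]
        refine BPath.conn h (hU hu) (fun x hx => hU (by
          rw [Finset.mem_singleton] at hx; rw [hx]; exact hu')) (by simpa using huu)
          (fun k hk => by rw [Finset.mem_singleton] at hk; rw [hk]; exact hK i hi)
          (Finset.mem_singleton_self u') (Finset.mem_singleton_self i) c3 ?_
        rw [Finset.erase_singleton, Finset.erase_singleton]
        exact BPath.refl u'

/-- All colours are used, when there are more vertices of `Q` than colours. `S` is the set of the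
vertices at which it was not possible to continue in blue. -/
theorem long (h : Conf B Q v p t) : ∀ (n : ℕ) (w : V) (U : Finset V) (K : Finset ℕ)
    (S : Finset V), w ∈ Q → U ⊆ Q → w ∉ U → (∀ j ∈ K, j < t) → U.card = n → K.card ≤ n →
    S ⊆ Q → (∀ x ∈ S, ∀ y ∈ S, x ≠ y → ¬ B x y) → w ∉ S → (∀ x ∈ S, ¬ B x w) →
    (∀ x ∈ S, ∀ y ∈ U, x ≠ y ∧ ¬ B x y) → t ≤ S.card + K.card →
    Arr B Q v w U K (n + K.card) := by
  intro n
  induction n with
  | zero =>
    intro w U K S hw hU hwU hK hUn hKn _ _ _ _ _ _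
    have := full1 h 0 w U K hw hU hwU hK hUn (by omega)
    have e : 0 + K.card = 2 * 0 := by omega
    rw [e]; exact this
  | succ n ih =>
    intro w U K S hw hU hwU hK hUn hKn hSQ hS hwS hSw hSU hcard
    by_cases hfull : K.card = n + 1
    · have := full1 h (n + 1) w U K hw hU hwU hK hUn hfull
      have e : n + 1 + K.card = 2 * (n + 1) := by omega
      rw [e]; exact this
    · by_cases hex : ∃ u ∈ U, B w u
      · obtain ⟨u, hu, hb⟩ := hex
        have e : n + 1 + K.card = (n + K.card) + 1 := by omega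
        rw [e]
        refine Arr.direct h hw hwU hK hu hb ?_
        refine ih u (U.erase u) K S (hU hu) ((Finset.erase_subset u U).trans hU)
          (Finset.notMem_erase u U) hK ?_ (by omega) hSQ hS ?_ ?_ ?_ hcard
        · rw [Finset.card_erase_of_mem hu, hUn]; rfl
        · exact fun hm => (hSU u hm u hu).1 rfl
        · exact fun x hx => (hSU x hx u hu).2
        · exact fun x hx y hy => hSU x hx y (Finset.mem_of_mem_erase hy)
      · push Not at hex
        obtain ⟨u, hu⟩ : U.Nonempty := by rw [← Finset.card_pos]; omega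
        have hwu : w ≠ u := fun he => hwU (he ▸ hu)
        by_cases hK0 : K.card = 0
        · exfalso
          have hS2 : (insert u (insert w S)).card ≤ t + 1 := by
            apply h.h7
            · intro x hx
              rw [Finset.mem_insert, Finset.mem_insert] at hx
              rcases hx with rfl | rfl | hx
              · exact hU hu
              · exact hw
              · exact hSQ hx
            · intro x hx y hy hxy
              rw [Finset.mem_insert, Finset.mem_insert] at hx hy
              rcases hx with rfl | rfl | hx <;> rcases hy with rfl | rfl | hy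
              · exact absurd rfl hxy
              · exact fun hb => hex _ hu (h.symm _ _ hb)
              · exact fun hb => (hSU y hy _ hu).2 (h.symm _ _ hb)
              · exact hex _ hu
              · exact absurd rfl hxy
              · exact fun hb => hSw y hy (h.symm _ _ hb)
              · exact (hSU x hx _ hu).2
              · exact hSw x hx
              · exact hS x hx y hy hxy
          have hu1 : u ∉ insert w S := by
            rw [Finset.mem_insert]
            rintro (he | hm)
            · exact hwu he.symm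
            · exact (hSU u hm u hu).1 rfl
          rw [Finset.card_insert_of_notMem hu1, Finset.card_insert_of_notMem hwS] at hS2
          omega
        · obtain ⟨j, hj⟩ : K.Nonempty := by rw [← Finset.card_pos]; omega
          have hc : Conn B v j w u := by
            by_contra hc
            exact hex u hu (blue_of_not_conn h (hK j hj) hw (hU hu) hc)
          have hKc : (K.erase j).card = K.card - 1 := Finset.card_erase_of_mem hj
          have e : n + 1 + K.card = (n + (K.erase j).card) + 2 := by omega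
          rw [e]
          refine Arr.conn h hw hU hwU hK hu hj hc ?_
          refine ih u (U.erase u) (K.erase j) (insert w S) (hU hu)
            ((Finset.erase_subset u U).trans hU) (Finset.notMem_erase u U)
            (fun i hi => hK i (Finset.mem_of_mem_erase hi)) ?_ (by omega) ?_ ?_ ?_ ?_ ?_ ?_
          · rw [Finset.card_erase_of_mem hu, hUn]; rfl
          · intro x hx
            rcases Finset.mem_insert.1 hx with rfl | hx
            · exact hw
            · exact hSQ hx
          · intro x hx y hy hxy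
            rcases Finset.mem_insert.1 hx with hx' | hx' <;>
              rcases Finset.mem_insert.1 hy with hy' | hy'
            · exact absurd (hx'.trans hy'.symm) hxy
            · exact fun hb => hSw y hy' (h.symm _ _ (hx' ▸ hb))
            · exact hy' ▸ hSw x hx'
            · exact hS x hx' y hy' hxy
          · rw [Finset.mem_insert]
            rintro (he | hm)
            · exact hwu he.symm
            · exact (hSU u hm u hu).1 rfl
          · intro x hx
            rcases Finset.mem_insert.1 hx with rfl | hx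
            · exact hex u hu
            · exact (hSU x hx u hu).2
          · intro x hx y hy
            have hyU := Finset.mem_of_mem_erase hy
            rcases Finset.mem_insert.1 hx with rfl | hx
            · exact ⟨fun he => hwU (he ▸ hyU), hex y hyU⟩
            · exact hSU x hx y hyU
          · rw [Finset.card_insert_of_notMem hwS]; omega

/-- A path that uses all colours but one, when there is one colour more than links; the case of at
least two links. -/
theorem full2 (h : Conf B Q v p t) : ∀ (n : ℕ) (w : V) (U : Finset V) (K : Finset ℕ),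
    w ∈ Q → U ⊆ Q → w ∉ U → (∀ j ∈ K, j < t) → U.card = n + 2 → K.card = n + 3 →
    ∃ y ∈ Q, ∃ γ ∈ K, BPath B v w U (K.erase γ) (2 * (n + 2)) y := by
  intro n
  induction n with
  | zero =>
    intro w U K hw hU hwU hK hUn hKn
    obtain ⟨u, u', huu, rfl⟩ := Finset.card_eq_two.1 hUn
    have hu : u ∈ ({u, u'} : Finset V) := by simp
    have hu' : u' ∈ ({u, u'} : Finset V) := by simp
    have huQ := hU hu
    have huQ' := hU hu'
    have hwu : w ≠ u := fun he => hwU (he ▸ hu)
    have hwu' : w ≠ u' := fun he => hwU (he ▸ hu')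
    -- the general way to finish
    have fin : ∀ x ∈ ({u, u'} : Finset V), ∀ x' ∈ ({u, u'} : Finset V), x ≠ x' →
        ∀ i ∈ K, ∀ j ∈ K, i ≠ j → Conn B v i w x → Conn B v j x x' →
        ∃ y ∈ Q, ∃ γ ∈ K, BPath B v w {u, u'} (K.erase γ) (2 * (0 + 2)) y := by
      intro x hx x' hx' hxx i hi j hj hij c1 c2
      obtain ⟨k, hk, hki, hkj⟩ : ∃ k ∈ K, k ≠ i ∧ k ≠ j := by
        by_contra hcon
        push Not at hcon
        have hsub : K ⊆ {i, j} := by
          intro k hk
          rw [Finset.mem_insert, Finset.mem_singleton]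
          by_contra hc
          push Not at hc
          exact hc.2 (hcon k hk hc.1)
        have := Finset.card_le_card hsub
        have := Finset.card_le_two (a := i) (b := j)
        omega
      refine ⟨x', hU hx', k, hk, ?_⟩
      refine BPath.conn (n := 2) h hw hU hwU (fun i hi => hK i (Finset.mem_of_mem_erase hi)) hx
        (Finset.mem_erase.2 ⟨hki.symm, hi⟩) c1 ?_
      refine BPath.conn (n := 0) h (hU hx) ((Finset.erase_subset _ _).trans hU)
        (Finset.notMem_erase _ _)
        (fun i hi => hK i (Finset.mem_of_mem_erase (Finset.mem_of_mem_erase hi)))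
        (Finset.mem_erase.2 ⟨hxx.symm, hx'⟩)
        (Finset.mem_erase.2 ⟨hij.symm, Finset.mem_erase.2 ⟨hkj.symm, hj⟩⟩) c2 ?_
      have e1 : (({u, u'} : Finset V).erase x).erase x' = ∅ := by
        rw [← Finset.card_eq_zero, Finset.card_erase_of_mem (Finset.mem_erase.2 ⟨hxx.symm, hx'⟩),
          Finset.card_erase_of_mem hx]
        omega
      have e2 : ((K.erase k).erase i).erase j = ∅ := by
        rw [← Finset.card_eq_zero, Finset.card_erase_of_mem
          (Finset.mem_erase.2 ⟨hij.symm, Finset.mem_erase.2 ⟨hkj.symm, hj⟩⟩),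
          Finset.card_erase_of_mem (Finset.mem_erase.2 ⟨hki.symm, hi⟩),
          Finset.card_erase_of_mem hk]
        omega
      rw [e1, e2]
      exact BPath.refl x'
    by_contra hcon
    have fin' : ∀ x ∈ ({u, u'} : Finset V), ∀ x' ∈ ({u, u'} : Finset V), x ≠ x' →
        ∀ i ∈ K, ∀ j ∈ K, i ≠ j → Conn B v i w x → ¬ Conn B v j x x' :=
      fun x hx x' hx' hxx i hi j hj hij c1 c2 => hcon (fin x hx x' hx' hxx i hi j hj hij c1 c2)
    obtain ⟨a, b, c, hab, hac, hbc, rfl⟩ := Finset.card_eq_three.1 hKn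
    have ha : a ∈ ({a, b, c} : Finset ℕ) := by simp
    have hb : b ∈ ({a, b, c} : Finset ℕ) := by simp
    have hc : c ∈ ({a, b, c} : Finset ℕ) := by simp
    -- one colour works for `w, u`
    have key : ∀ i ∈ ({a, b, c} : Finset ℕ), ∀ j ∈ ({a, b, c} : Finset ℕ),
        ∀ k ∈ ({a, b, c} : Finset ℕ), i ≠ j → i ≠ k → j ≠ k → Conn B v i w u → False := by
      intro i hi j hj k hk hij hik hjk c1
      have n1 := fin' u hu u' hu' huu i hi j hj hij c1
      have n2 := fin' u hu u' hu' huu i hi k hk hik c1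
      have c2 : Conn B v i u u' := by
        rcases three h (hK i hi) (hK j hj) (hK k hk) hij hik hjk huQ huQ' with hh | hh | hh
        · exact hh
        · exact absurd hh n1
        · exact absurd hh n2
      have n3 : ¬ Conn B v j w u := fun hh => fin' u hu u' hu' huu j hj i hi hij.symm hh c2
      have c3 : Conn B v j w u' :=
        side h (hK j hj) huQ hw huQ' (fun hh => n3 (hh.symm h)) n1
      exact fin' u' hu' u hu huu.symm j hj i hi hij.symm c3 (c2.symm h)
    rcases three h (hK a ha) (hK b hb) (hK c hc) hab hac hbc hw huQ with hh | hh | hh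
    · exact key a ha b hb c hc hab hac hbc hh
    · exact key b hb a ha c hc hab.symm hbc hac hh
    · exact key c hc a ha b hb hac.symm hbc.symm hab hh
  | succ n ih =>
    intro w U K hw hU hwU hK hUn hKn
    obtain ⟨u, hu⟩ : U.Nonempty := by rw [← Finset.card_pos]; omega
    obtain ⟨i, hi, j, hj, k, hk, hij, hik, hjk⟩ := Finset.two_lt_card.1 (by omega : 2 < K.card)
    have key : ∀ i ∈ K, Conn B v i w u →
        ∃ y ∈ Q, ∃ γ ∈ K, BPath B v w U (K.erase γ) (2 * (n + 1 + 2)) y := by
      intro i hi hc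
      obtain ⟨y, hy, γ, hγ, hp⟩ := ih u (U.erase u) (K.erase i) (hU hu)
        ((Finset.erase_subset _ _).trans hU) (Finset.notMem_erase _ _)
        (fun j hj => hK j (Finset.mem_of_mem_erase hj))
        (by rw [Finset.card_erase_of_mem hu]; omega) (by rw [Finset.card_erase_of_mem hi]; omega)
      refine ⟨y, hy, γ, Finset.mem_of_mem_erase hγ, ?_⟩
      rw [Finset.erase_right_comm] at hp
      exact hp.conn h hw hU hwU (fun j hj => hK j (Finset.mem_of_mem_erase hj)) hu
        (Finset.mem_erase.2 ⟨(Finset.mem_erase.1 hγ).1.symm, hi⟩) hc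
    rcases three h (hK i hi) (hK j hj) (hK k hk) hij hik hjk hw (hU hu) with hh | hh | hh
    · exact key i hi hh
    · exact key j hj hh
    · exact key k hk hh

end Pool.Agent.E8helper93.CR
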