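import Pool.Agent.E8helper93.CR.Abs

/-!
# All lengths of blue cycles
-/

set_option autoImplicit false
set_option linter.unusedSectionVars false

namespace Pool.Agent.E8helper93.CR

open Finset

variable {V : Type*} [DecidableEq V] {B : V → V → Prop} {Q : Finset V} {v : ℕ → V} {p t : ℕ}

theorem Conf.mono (h : Conf B Q v p t) {Q' : Finset V} (hQ : Q' ⊆ Q) : Conf B Q' v p t where
  symm := h.symm
  ht := h.ht
  inj := h.inj
  disj := fun i hi hm => h.disj i hi (hQ hm)
  se := h.se
  su := fun u hu => h.su u (hQ hu)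
  eu := fun u hu => h.eu u (hQ hu)
  h1 := fun u hu => h.h1 u (hQ hu)
  h2 := fun u hu u' hu' => h.h2 u (hQ hu) u' (hQ hu')
  h3 := fun u hu u' hu' => h.h3 u (hQ hu) u' (hQ hu')
  h4 := fun u hu => h.h4 u (hQ hu)
  h4' := fun u hu => h.h4' u (hQ hu)
  h5 := h.h5
  h7 := fun S hS => h.h7 S (hS.trans hQ)

/-- Close a path with the help of two vertices outside. -/
theorem close {w y z z' : V} {l m : List V} (h1 : (w :: l).Nodup)
    (h2 : (w :: l).IsChain B) (h5 : (w :: l).getLast? = some y) (hm : (m ++ [z']).Nodup)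
    (hmc : (m ++ [z']).IsChain B) (hy : ∀ c ∈ (m ++ [z']).head?, B y c) (hzw : B z w)
    (hz'z : B z' z) (hdis : ∀ x ∈ w :: l, x ∉ m ++ [z'] ∧ x ≠ z) (hz : z ∉ m ++ [z']) :
    HasCyc B (l.length + 1 + m.length + 2) := by
  refine ⟨z, (w :: l) ++ (m ++ [z']), z', ?_, ?_, ?_, ?_, hz'z⟩
  · rw [List.nodup_cons, List.nodup_append, List.mem_append]
    refine ⟨?_, h1, hm, ?_⟩
    · rintro (hh | hh)
      · exact (hdis z hh).2 rfl
      · exact hz hh
    · intro a ha b hb hab
      exact (hdis a ha).1 (hab ▸ hb)
  · rw [List.cons_append]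
    refine List.IsChain.cons_cons hzw ?_
    rw [← List.cons_append, List.isChain_append]
    refine ⟨h2, hmc, ?_⟩
    intro x hx c hc
    rw [h5, Option.mem_some_iff] at hx
    exact hx ▸ hy c hc
  · simp
    omega
  · rw [← List.cons_append, ← List.append_assoc, List.getLast?_append]
    simp

theorem cyc_of_arr (h : Conf B Q v p t) {w : V} {U : Finset V} {K : Finset ℕ} {n : ℕ}
    (hw : w ∈ Q) (hU : U ⊆ Q) (hK : ∀ j ∈ K, j < t) (ha : Arr B Q v w U K n) :
    HasCyc B (n + 3) := by
  have ht := h.ht
  have hne : v 0 ≠ v (p - 1) := fun he => by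
    have := h.inj 0 (by omega) (p - 1) (by omega) he
    omega
  obtain ⟨y, hy, ha⟩ := ha
  rcases ha with ⟨l, h1, h2, h3, h4, h5⟩ | ⟨γ, hγ, n', rfl, l, h1, h2, h3, h4, h5⟩
  · have key : ∀ i < p, (∀ j < t, i ≠ 2 * j + 1 ∧ i ≠ 2 * j + 2) → ∀ x ∈ w :: l, x ≠ v i := by
      intro i hi hij x hx he
      rcases List.mem_cons.1 hx with rfl | hx
      · exact h.disj i hi (he ▸ hw)
      · rcases h3 x hx with h3 | ⟨j, hj, h3 | h3⟩
        · exact h.disj i hi (he ▸ hU h3)
        · have := h.inj i hi (2 * j + 1) (by have := hK j hj; omega) (he.symm.trans h3)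
          exact (hij j (hK j hj)).1 this
        · have := h.inj i hi (2 * j + 2) (by have := hK j hj; omega) (he.symm.trans h3)
          exact (hij j (hK j hj)).2 this
    have hh := close (z := v (p - 1)) (z' := v 0) (m := []) h1 h2 h5 (by simp) (by simp)
      (by
        intro c hc
        simp at hc
        subst hc
        exact h.symm _ _ (h.su y hy)) (h.eu w hw) h.se
      (by
        intro x hx
        have k0 := key 0 (by omega) (fun j hj => by omega) x hx
        have k1 := key (p - 1) (by omega) (fun j hj => by omega) x hx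
        simp [k0, k1])
      (by simp [hne.symm])
    simp only [List.length_nil] at hh
    have e : n + 3 = l.length + 1 + 0 + 2 := by omega
    rw [e]; exact hh
  · have hγt := hK γ hγ
    obtain ⟨c, hc, hc1, hc2⟩ := placeable h hγt hy
    have key : ∀ i < p, (∀ j < t, j ≠ γ → i ≠ 2 * j + 1 ∧ i ≠ 2 * j + 2) →
        ∀ x ∈ w :: l, x ≠ v i := by
      intro i hi hij x hx he
      rcases List.mem_cons.1 hx with rfl | hx
      · exact h.disj i hi (he ▸ hw)
      · rcases h3 x hx with h3 | ⟨j, hj, h3 | h3⟩
        · exact h.disj i hi (he ▸ hU h3)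
        · have hj' := Finset.mem_erase.1 hj
          have := h.inj i hi (2 * j + 1) (by have := hK j hj'.2; omega) (he.symm.trans h3)
          exact (hij j (hK j hj'.2) hj'.1).1 this
        · have hj' := Finset.mem_erase.1 hj
          have := h.inj i hi (2 * j + 2) (by have := hK j hj'.2; omega) (he.symm.trans h3)
          exact (hij j (hK j hj'.2) hj'.1).2 this
    have hcv : ∃ i, (i = 2 * γ + 1 ∨ i = 2 * γ + 2) ∧ c = v i := by
      rcases hc with hc | hc
      · exact ⟨_, Or.inl rfl, hc⟩
      · exact ⟨_, Or.inr rfl, hc⟩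
    obtain ⟨i, hi, hci⟩ := hcv
    have hc0 : c ≠ v 0 := fun he => by
      have := h.inj i (by omega) 0 (by omega) (hci.symm.trans he)
      omega
    have hcp : c ≠ v (p - 1) := fun he => by
      have := h.inj i (by omega) (p - 1) (by omega) (hci.symm.trans he)
      omega
    have kc := key i (by omega) (fun j hj hjγ => by omega)
    have e : n' + 1 + 3 = l.length + 1 + 1 + 2 := by omega
    rcases hc2 with hc2 | hc2
    · have hh := close (z := v (p - 1)) (z' := v 0) (m := [c]) h1 h2 h5 (by simp [hc0])
        (by simp [hc2])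
        (by
          intro c' hc'
          simp at hc'
          exact hc' ▸ hc1) (h.eu w hw) h.se
        (by
          intro x hx
          have k0 := key 0 (by omega) (fun j hj _ => by omega) x hx
          have k1 := key (p - 1) (by omega) (fun j hj _ => by omega) x hx
          have k2 := kc x hx
          rw [← hci] at k2
          simp [k0, k1, k2])
        (by simp [hne.symm, hcp.symm])
      rw [e]
      simpa using hh
    · have hh := close (z := v 0) (z' := v (p - 1)) (m := [c]) h1 h2 h5 (by simp [hcp])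
        (by simp [hc2])
        (by
          intro c' hc'
          simp at hc'
          exact hc' ▸ hc1) (h.su w hw) (h.symm _ _ h.se)
        (by
          intro x hx
          have k0 := key 0 (by omega) (fun j hj _ => by omega) x hx
          have k1 := key (p - 1) (by omega) (fun j hj _ => by omega) x hx
          have k2 := kc x hx
          rw [← hci] at k2
          simp [k0, k1, k2])
        (by simp [hne, hc0.symm])
      rw [e]
      simpa using hh

/-- Blue cycles of length `2 k + 1`. -/
theorem cyc_odd (h : Conf B Q v p t) {k : ℕ} (hk : 1 ≤ k) (hQ : Q.card = k) (hkt : k - 1 ≤ t) :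
    HasCyc B (2 * k + 1) := by
  obtain ⟨w, hw⟩ : Q.Nonempty := by rw [← Finset.card_pos]; omega
  have hU : Q.erase w ⊆ Q := Finset.erase_subset w Q
  have hK : ∀ j ∈ Finset.range (k - 1), j < t := fun j hj => by
    rw [Finset.mem_range] at hj; omega
  have := full1 h (k - 1) w (Q.erase w) (Finset.range (k - 1)) hw hU (Finset.notMem_erase w Q) hK
    (by rw [Finset.card_erase_of_mem hw, hQ]) (Finset.card_range _)
  have := cyc_of_arr h hw hU hK this
  have e : 2 * k + 1 = 2 * (k - 1) + 3 := by omega
  rw [e]; exact this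

/-- Blue cycles of length `k + 2 + t`. -/
theorem cyc_long (h : Conf B Q v p t) {k : ℕ} (hk : t + 1 ≤ k) (hQ : Q.card = k) :
    HasCyc B (k + 2 + t) := by
  obtain ⟨w, hw⟩ : Q.Nonempty := by rw [← Finset.card_pos]; omega
  have hU : Q.erase w ⊆ Q := Finset.erase_subset w Q
  have hK : ∀ j ∈ Finset.range t, j < t := fun j hj => Finset.mem_range.1 hj
  have := long h (k - 1) w (Q.erase w) (Finset.range t) ∅ hw hU (Finset.notMem_erase w Q) hK
    (by rw [Finset.card_erase_of_mem hw, hQ]) (by rw [Finset.card_range]; omega)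
    (Finset.empty_subset _) (by simp) (by simp) (by simp) (by simp) (by simp)
  have := cyc_of_arr h hw hU hK this
  rw [Finset.card_range] at this
  have e : k + 2 + t = k - 1 + t + 3 := by omega
  rw [e]; exact this

/-- Blue cycles of length `2 k + 2`. -/
theorem cyc_even (h : Conf B Q v p t) {k : ℕ} (hk : 1 ≤ k) (hQ : Q.card = k) (hkt : k ≤ t) :
    HasCyc B (2 * k + 2) := by
  obtain ⟨w, hw⟩ : Q.Nonempty := by rw [← Finset.card_pos]; omega
  have hU : Q.erase w ⊆ Q := Finset.erase_subset w Q
  have hK : ∀ j ∈ Finset.range k, j < t := fun j hj => by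
    rw [Finset.mem_range] at hj; omega
  have hUc : (Q.erase w).card = k - 1 := by rw [Finset.card_erase_of_mem hw, hQ]
  have main : ∃ y ∈ Q, ∃ γ ∈ Finset.range k,
      BPath B v w (Q.erase w) ((Finset.range k).erase γ) (2 * (k - 1)) y := by
    rcases Nat.lt_or_ge k 3 with h3 | h3
    · interval_cases k
      · have e1 : Q.erase w = ∅ := by rw [← Finset.card_eq_zero, hUc]
        refine ⟨w, hw, 0, by simp, ?_⟩
        rw [e1]
        have e2 : (Finset.range 1).erase 0 = ∅ := by decide
        rw [e2]
        exact BPath.refl w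
      · obtain ⟨u, hu⟩ := Finset.card_eq_one.1 hUc
        have huQ : u ∈ Q := hU (by rw [hu]; exact Finset.mem_singleton_self u)
        have hwu : w ∉ ({u} : Finset V) := by rw [← hu]; exact Finset.notMem_erase w Q
        have hus : ({u} : Finset V) ⊆ Q := by rw [← hu]; exact hU
        rcases adj_col h (j := 0) (by omega) hw huQ with hc | hc
        · refine ⟨u, huQ, 1, by simp, ?_⟩
          rw [hu]
          refine BPath.conn (n := 0) h hw hus hwu
            (fun j hj => hK j (Finset.mem_of_mem_erase hj)) (Finset.mem_singleton_self u)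
            (by decide) hc ?_
          have e2 : ((Finset.range 2).erase 1).erase 0 = ∅ := by decide
          rw [Finset.erase_singleton, e2]
          exact BPath.refl u
        · refine ⟨u, huQ, 0, by simp, ?_⟩
          rw [hu]
          refine BPath.conn (n := 0) (j := 1) h hw hus hwu
            (fun j hj => hK j (Finset.mem_of_mem_erase hj)) (Finset.mem_singleton_self u)
            (by decide) hc ?_
          have e2 : ((Finset.range 2).erase 0).erase 1 = ∅ := by decide
          rw [Finset.erase_singleton, e2]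
          exact BPath.refl u
    · obtain ⟨y, hy, γ, hγ, hp⟩ := full2 h (k - 3) w (Q.erase w) (Finset.range k) hw hU
        (Finset.notMem_erase w Q) hK (by omega) (by rw [Finset.card_range]; omega)
      refine ⟨y, hy, γ, hγ, ?_⟩
      have e : 2 * (k - 1) = 2 * (k - 3 + 2) := by omega
      rw [e]; exact hp
  obtain ⟨y, hy, γ, hγ, hp⟩ := main
  have := cyc_of_arr h hw hU hK ⟨y, hy, Or.inr ⟨γ, hγ, 2 * (k - 1), rfl, hp⟩⟩
  have e : 2 * k + 2 = 2 * (k - 1) + 1 + 3 := by omega
  rw [e]; exact this

/-- Blue cycles of all lengths. -/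
theorem cycles (h : Conf B Q v p t) {n : ℕ} (h3 : 3 ≤ n) (hn1 : n ≤ 2 * Q.card + 2)
    (hn2 : n ≤ Q.card + 2 + t) : HasCyc B n := by
  have sub : ∀ k ≤ Q.card, ∃ Q' ⊆ Q, Q'.card = k := fun k hk =>
    Finset.exists_subset_card_eq hk
  rcases Nat.even_or_odd' n with ⟨m, rfl | rfl⟩
  · by_cases hmt : m - 1 ≤ t
    · obtain ⟨Q', hQ', hc⟩ := sub (m - 1) (by omega)
      have := cyc_even (h.mono hQ') (by omega) hc hmt
      have e : 2 * m = 2 * (m - 1) + 2 := by omega
      rw [e]; exact this
    · obtain ⟨Q', hQ', hc⟩ := sub (2 * m - 2 - t) (by omega)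
      have := cyc_long (h.mono hQ') (by omega) hc
      have e : 2 * m = 2 * m - 2 - t + 2 + t := by omega
      rw [e]; exact this
  · by_cases hmt : m - 1 ≤ t
    · obtain ⟨Q', hQ', hc⟩ := sub m (by omega)
      exact cyc_odd (h.mono hQ') (by omega) hc hmt
    · obtain ⟨Q', hQ', hc⟩ := sub (2 * m + 1 - 2 - t) (by omega)
      have := cyc_long (h.mono hQ') (by omega) hc
      have e : 2 * m + 1 = 2 * m + 1 - 2 - t + 2 + t := by omega
      rw [e]; exact this

end Pool.Agent.E8helper93.CR
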