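import Pool.Agent.E8helper93.CR.Upper

/-!
# The lower bound: three constructions
-/

set_option autoImplicit false
set_option linter.unusedSectionVars false

namespace Pool.Agent.E8helper93.CR

open Finset SimpleGraph

/-- A copy of a path, as a function on the natural numbers. -/
theorem of_path {N m : ℕ} {F : SimpleGraph (Fin N)} (h : (pathGraph m).IsContained F) :
    ∃ g : ℕ → ℕ, (∀ i < m, g i < N) ∧ (∀ i < m, ∀ j < m, g i = g j → i = j) ∧
      ∀ i, i + 1 < m → ∃ (h1 : g i < N) (h2 : g (i + 1) < N), F.Adj ⟨g i, h1⟩ ⟨g (i + 1), h2⟩ := by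
  obtain ⟨f⟩ := h
  refine ⟨fun i => if h : i < m then (f.toHom ⟨i, h⟩).1 else 0, ?_, ?_, ?_⟩
  · intro i hi
    simp only [hi, dif_pos]
    exact (f.toHom ⟨i, hi⟩).2
  · intro i hi j hj he
    simp only [hi, hj, dif_pos] at he
    have := f.injective (Fin.ext he)
    simpa using this
  · intro i hi
    have hi0 : i < m := by omega
    simp only [hi, hi0, dif_pos]
    refine ⟨(f.toHom ⟨i, hi0⟩).2, (f.toHom ⟨i + 1, hi⟩).2, ?_⟩
    have : (pathGraph m).Adj ⟨i, hi0⟩ ⟨i + 1, hi⟩ := by
      rw [pathGraph_adj]; left; rfl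
    exact f.toHom.map_rel this

/-- A copy of a cycle. -/
theorem of_cycle {N n : ℕ} (hn : 3 ≤ n) {F : SimpleGraph (Fin N)}
    (h : (cycleGraph n).IsContained F) :
    ∃ (g : Fin n → Fin N) (σ : Fin n → Fin n), Function.Injective g ∧ Function.Bijective σ ∧
      (∀ i, F.Adj (g i) (g (σ i))) ∧ ∀ i, σ (σ i) ≠ i := by
  obtain ⟨f⟩ := h
  obtain ⟨k, rfl⟩ : ∃ k, n = k + 3 := ⟨n - 3, by omega⟩
  refine ⟨fun i => f.toHom i, fun i => i + 1, f.injective, ?_, ?_, ?_⟩
  · exact (Equiv.addRight (1 : Fin (k + 3))).bijective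
  · intro i
    refine f.toHom.map_rel ?_
    rw [cycleGraph_adj]
    right
    simp
  · intro i hi
    have h1 : (1 : Fin (k + 3)) + 1 = 0 := by
      have : i + (1 + 1) = i + 0 := by rw [← add_assoc, add_zero]; exact hi
      exact add_left_cancel this
    have h2 := congrArg Fin.val h1
    rw [Fin.val_add] at h2
    simp at h2
    rw [Nat.mod_eq_of_lt (by omega)] at h2
    omega

/-- In a cycle every vertex has two different neighbours. -/
theorem two_nbrs {N n : ℕ} {F : SimpleGraph (Fin N)} {g : Fin n → Fin N} {σ : Fin n → Fin n}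
    (hg : Function.Injective g) (hσ : Function.Bijective σ) (ha : ∀ i, F.Adj (g i) (g (σ i)))
    (h2 : ∀ i, σ (σ i) ≠ i) (i : Fin n) {a : Fin N} (h : ∀ b, F.Adj (g i) b → b = a) : False := by
  obtain ⟨j, rfl⟩ := hσ.2 i
  have e1 := h _ (ha (σ j))
  have e2 := h _ (ha j).symm
  exact h2 j (hg (e1.trans e2.symm))

/-! ### First construction -/

/-- A clique on `m - 2` vertices with one edge `01` removed; all other vertices are joined to the
vertex `0` only. -/
def L1 (m N : ℕ) : SimpleGraph (Fin N) :=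
  SimpleGraph.fromRel fun a b => (a.1 < m - 2 ∧ b.1 < m - 2 ∧ ¬ (a.1 = 0 ∧ b.1 = 1) ∧
    ¬ (a.1 = 1 ∧ b.1 = 0)) ∨ (a.1 = 0 ∧ m - 2 ≤ b.1)

theorem L1_adj {m N : ℕ} {a b : Fin N} : (L1 m N).Adj a b ↔ a ≠ b ∧
    (((a.1 < m - 2 ∧ b.1 < m - 2 ∧ ¬ (a.1 = 0 ∧ b.1 = 1) ∧ ¬ (a.1 = 1 ∧ b.1 = 0)) ∨
      (a.1 = 0 ∧ m - 2 ≤ b.1)) ∨
    ((b.1 < m - 2 ∧ a.1 < m - 2 ∧ ¬ (b.1 = 0 ∧ a.1 = 1) ∧ ¬ (b.1 = 1 ∧ a.1 = 0)) ∨
      (b.1 = 0 ∧ m - 2 ≤ a.1))) := by
  rw [L1, fromRel_adj]

theorem L1_conn {m N : ℕ} (hm : 5 ≤ m) (hN : m - 2 < N) : (L1 m N).Connected := by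
  rw [connected_iff_exists_forall_reachable]
  refine ⟨⟨2, by omega⟩, fun w => ?_⟩
  have h20 : (L1 m N).Adj ⟨2, by omega⟩ ⟨0, by omega⟩ := by
    rw [L1_adj]
    refine ⟨by simp, ?_⟩
    left; left; simp; omega
  by_cases hw : w.1 < m - 2
  · by_cases hw2 : w.1 = 2
    · have : w = ⟨2, by omega⟩ := Fin.ext hw2
      rw [this]
    · refine Adj.reachable ?_
      rw [L1_adj]
      refine ⟨fun he => hw2 (by rw [← he]), ?_⟩
      left; left; simp; omega
  · refine h20.reachable.trans (Adj.reachable ?_)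
    rw [L1_adj]
    refine ⟨fun he => ?_, ?_⟩
    · rw [← he] at hw; simp at hw; omega
    · left; right; simp; omega

theorem L1_compl_conn {m N : ℕ} (hm : 5 ≤ m) (hN : m - 2 < N) : (L1 m N)ᶜ.Connected := by
  rw [connected_iff_exists_forall_reachable]
  refine ⟨⟨m - 2, by omega⟩, fun w => ?_⟩
  have h1 : (L1 m N)ᶜ.Adj ⟨m - 2, by omega⟩ ⟨1, by omega⟩ := by
    rw [compl_adj, L1_adj]
    simp; omega
  have h2 : (L1 m N)ᶜ.Adj ⟨1, by omega⟩ ⟨0, by omega⟩ := by
    rw [compl_adj, L1_adj]
    simp; omega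
  by_cases hw0 : w.1 = 0
  · have : w = ⟨0, by omega⟩ := Fin.ext hw0
    rw [this]
    exact h1.reachable.trans h2.reachable
  · by_cases hw : w.1 = m - 2
    · have : w = ⟨m - 2, by omega⟩ := Fin.ext hw
      rw [this]
    · refine Adj.reachable ?_
      rw [compl_adj, L1_adj]
      have hw' : (⟨m - 2, by omega⟩ : Fin N) ≠ w := fun he => hw (by rw [← he])
      refine ⟨hw', ?_⟩
      rintro ⟨_, h⟩
      have hwN := w.2
      simp only at h
      omega

theorem L1_no_path {m N : ℕ} (hm : 5 ≤ m) : ¬ (pathGraph m).IsContained (L1 m N) := by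
  intro h
  obtain ⟨g, -, hinj, hadj⟩ := of_path h
  have hB : ∀ i, i + 1 < m → m - 2 ≤ g i → g (i + 1) = 0 := by
    intro i hi hgi
    obtain ⟨h1, h2, h3⟩ := hadj i hi
    rw [L1_adj] at h3
    simp only at h3
    omega
  have hB' : ∀ i, i + 1 < m → m - 2 ≤ g (i + 1) → g i = 0 := by
    intro i hi hgi
    obtain ⟨h1, h2, h3⟩ := hadj i hi
    rw [L1_adj] at h3
    simp only at h3
    omega
  have hmid : ∀ i, i + 2 < m → g (i + 1) < m - 2 := by
    intro i hi
    by_contra hc
    have e1 := hB (i + 1) (by omega) (by omega)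
    have e2 := hB' i (by omega) (by omega)
    have := hinj _ (by omega) _ (by omega) (e1.trans e2.symm)
    omega
  -- one of the two ends is in the clique
  have hends : g 0 < m - 2 ∨ g (m - 1) < m - 2 := by
    by_contra hc
    push Not at hc
    have e1 := hB 0 (by omega) hc.1
    have e2 := hB' (m - 2) (by omega) (by
      have : m - 2 + 1 = m - 1 := by omega
      rw [this]; exact hc.2)
    have := hinj _ (by omega) _ (by omega) (e1.trans e2.symm)
    omega
  rcases hends with h0 | h0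
  · have hmap : ∀ i ∈ Finset.range (m - 1), g i ∈ Finset.range (m - 2) := by
      intro i hi
      rw [Finset.mem_range] at hi ⊢
      rcases Nat.eq_zero_or_pos i with rfl | hpos
      · exact h0
      · have := hmid (i - 1) (by omega)
        have e : i - 1 + 1 = i := by omega
        rw [e] at this; exact this
    have := Finset.card_le_card_of_injOn g hmap (by
      intro a ha b hb hab
      simp only [Finset.coe_range, Set.mem_Iio] at ha hb
      exact hinj a (by omega) b (by omega) hab)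
    rw [Finset.card_range, Finset.card_range] at this
    omega
  · have hmap : ∀ i ∈ Finset.range (m - 1), g (i + 1) ∈ Finset.range (m - 2) := by
      intro i hi
      rw [Finset.mem_range] at hi ⊢
      by_cases hi2 : i = m - 2
      · rw [hi2]
        have e : m - 2 + 1 = m - 1 := by omega
        rw [e]; exact h0
      · exact hmid i (by omega)
    have := Finset.card_le_card_of_injOn (fun i => g (i + 1)) hmap (by
      intro a ha b hb hab
      simp only [Finset.coe_range, Set.mem_Iio] at ha hb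
      have := hinj (a + 1) (by omega) (b + 1) (by omega) hab
      omega)
    rw [Finset.card_range, Finset.card_range] at this
    omega

theorem L1_no_cycle {m n N : ℕ} (hn : 3 ≤ n) (hm : 5 ≤ m) (hN : N = m - 2 + (n - 1) / 2) :
    ¬ (cycleGraph n).IsContained (L1 m N)ᶜ := by
  intro h
  obtain ⟨g, σ, hg, hσ, ha, h2⟩ := of_cycle hn h
  have h0 : ∀ i, (g i).1 ≠ 0 := by
    intro i hi
    refine two_nbrs hg hσ ha h2 i (a := ⟨1, by omega⟩) ?_
    intro b hb
    rw [compl_adj, L1_adj] at hb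
    apply Fin.ext
    simp only
    have := b.2
    have hne : (g i).1 ≠ b.1 := fun he => hb.1 (Fin.ext he)
    have h3 := hb.2
    simp only [not_and, not_or, ne_eq] at h3
    have h4 := h3 hb.1
    omega
  let S : Finset (Fin n) := Finset.univ.filter fun i => m - 2 ≤ (g i).1
  have hcov : ∀ i, i ∈ S ∨ σ i ∈ S := by
    intro i
    by_contra hc
    simp only [S, Finset.mem_filter, Finset.mem_univ, true_and, not_or, not_le] at hc
    have h3 := ha i
    rw [compl_adj, L1_adj] at h3
    have a1 := h0 i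
    have a2 := h0 (σ i)
    have h4 := h3.2
    simp only [not_and, not_or, ne_eq] at h4
    have h5 := h4 h3.1
    omega
  have hS : S.card ≤ (n - 1) / 2 := by
    have : S.card ≤ (Finset.range ((n - 1) / 2)).card := by
      refine Finset.card_le_card_of_injOn (fun i => (g i).1 - (m - 2)) ?_ ?_
      · intro i hi
        simp only [S, Finset.coe_filter, Finset.mem_univ, true_and, Set.mem_ofPred_eq] at hi
        simp only [Finset.coe_range, Set.mem_Iio]
        have := (g i).2
        omega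
      · intro i hi j hj hij
        simp only [S, Finset.coe_filter, Finset.mem_univ, true_and, Set.mem_ofPred_eq] at hi hj
        simp only at hij
        exact hg (Fin.ext (by omega))
    rwa [Finset.card_range] at this
  have hT : (Finset.univ.filter fun i => σ i ∈ S).card ≤ S.card := by
    refine Finset.card_le_card_of_injOn σ ?_ hσ.1.injOn
    intro i hi
    simpa using hi
  have hU : (Finset.univ : Finset (Fin n)) ⊆ S ∪ Finset.univ.filter fun i => σ i ∈ S := by
    intro i _
    refine Finset.mem_union.2 ?_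
    rcases hcov i with hh | hh
    · exact Or.inl hh
    · exact Or.inr (Finset.mem_filter.2 ⟨Finset.mem_univ _, hh⟩)
  have h3 := (Finset.card_le_card hU).trans (Finset.card_union_le _ _)
  rw [Finset.card_univ, Fintype.card_fin] at h3
  omega

/-! ### Second construction -/

/-- A clique `S` on `s` vertices `0, ..., s - 1`, joined to an independent set, except that `0` is not
joined to `s`, and `1, ..., s - 1` are not joined to `s + 1`. -/
def L2 (s N : ℕ) : SimpleGraph (Fin N) :=
  SimpleGraph.fromRel fun a b => (a.1 < s ∧ b.1 < s) ∨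
    (a.1 < s ∧ s ≤ b.1 ∧ ¬ (a.1 = 0 ∧ b.1 = s) ∧ ¬ (1 ≤ a.1 ∧ b.1 = s + 1))

theorem L2_adj {s N : ℕ} {a b : Fin N} : (L2 s N).Adj a b ↔ a ≠ b ∧
    (((a.1 < s ∧ b.1 < s) ∨
      (a.1 < s ∧ s ≤ b.1 ∧ ¬ (a.1 = 0 ∧ b.1 = s) ∧ ¬ (1 ≤ a.1 ∧ b.1 = s + 1))) ∨
    ((b.1 < s ∧ a.1 < s) ∨
      (b.1 < s ∧ s ≤ a.1 ∧ ¬ (b.1 = 0 ∧ a.1 = s) ∧ ¬ (1 ≤ b.1 ∧ a.1 = s + 1)))) := by
  rw [L2, fromRel_adj]

theorem L2_conn {s N : ℕ} (hs : 2 ≤ s) (hN : s + 1 < N) : (L2 s N).Connected := by
  rw [connected_iff_exists_forall_reachable]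
  refine ⟨⟨0, by omega⟩, fun w => ?_⟩
  by_cases hw0 : w.1 = 0
  · have : w = ⟨0, by omega⟩ := Fin.ext hw0
    rw [this]
  · by_cases hws : w.1 = s
    · have h1 : (L2 s N).Adj ⟨0, by omega⟩ ⟨1, by omega⟩ := by
        rw [L2_adj]
        refine ⟨by simp, ?_⟩
        simp; omega
      refine h1.reachable.trans (Adj.reachable ?_)
      rw [L2_adj]
      refine ⟨fun he => ?_, ?_⟩
      · rw [← he] at hws; simp at hws; omega
      · simp; omega
    · refine Adj.reachable ?_
      rw [L2_adj]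
      refine ⟨fun he => hw0 (by rw [← he]), ?_⟩
      simp; omega

theorem L2_compl_conn {s N : ℕ} (hs : 2 ≤ s) (hN : s + 1 < N) : (L2 s N)ᶜ.Connected := by
  rw [connected_iff_exists_forall_reachable]
  refine ⟨⟨s, by omega⟩, fun w => ?_⟩
  by_cases hws : w.1 = s
  · have : w = ⟨s, by omega⟩ := Fin.ext hws
    rw [this]
  · by_cases hw : s < w.1 ∨ w.1 = 0
    · refine Adj.reachable ?_
      rw [compl_adj, L2_adj]
      have hne : (⟨s, by omega⟩ : Fin N) ≠ w := fun he => hws (by rw [← he])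
      refine ⟨hne, ?_⟩
      rintro ⟨_, h⟩
      have hwN := w.2
      simp only [and_true] at h
      omega
    · have h1 : (L2 s N)ᶜ.Adj ⟨s, by omega⟩ ⟨s + 1, by omega⟩ := by
        rw [compl_adj, L2_adj]
        simp
      refine h1.reachable.trans (Adj.reachable ?_)
      rw [compl_adj, L2_adj]
      have hne : (⟨s + 1, by omega⟩ : Fin N) ≠ w := fun he => by
        have := congrArg Fin.val he
        simp at this; omega
      refine ⟨hne, ?_⟩
      rintro ⟨_, h⟩
      have hwN := w.2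
      simp only [and_true] at h
      omega

theorem L2_no_path {m s N : ℕ} (hs : s < m / 2) : ¬ (pathGraph m).IsContained (L2 s N) := by
  intro h
  obtain ⟨g, -, hinj, hadj⟩ := of_path h
  have hcov : ∀ i, i + 1 < m → g i < s ∨ g (i + 1) < s := by
    intro i hi
    obtain ⟨h1, h2, h3⟩ := hadj i hi
    rw [L2_adj] at h3
    simp only at h3
    omega
  -- choose one index in each pair `2 k, 2 k + 1`
  have hch : ∀ k, k < m / 2 → ∃ i, (i = 2 * k ∨ i = 2 * k + 1) ∧ g i < s := by
    intro k hk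
    rcases hcov (2 * k) (by omega) with hh | hh
    · exact ⟨_, Or.inl rfl, hh⟩
    · exact ⟨_, Or.inr rfl, hh⟩
  choose! c hc using hch
  have := Finset.card_le_card_of_injOn (s := Finset.range (m / 2)) (t := Finset.range s)
    (fun k => g (c k)) (by
      intro k hk
      simp only [Finset.coe_range, Set.mem_Iio] at hk ⊢
      exact (hc k hk).2) (by
      intro a ha b hb hab
      simp only [Finset.coe_range, Set.mem_Iio] at ha hb
      have h1 := hc a ha
      have h2 := hc b hb
      have := hinj (c a) (by omega) (c b) (by omega) hab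
      omega)
  rw [Finset.card_range, Finset.card_range] at this
  omega

theorem L2_no_cycle {n s N : ℕ} (hn : 3 ≤ n) (hs : 2 ≤ s) (hN : N = n - 1 + s) :
    ¬ (cycleGraph n).IsContained (L2 s N)ᶜ := by
  intro h
  obtain ⟨g, σ, hg, hσ, ha, h2⟩ := of_cycle hn h
  have h0 : ∀ i, s ≤ (g i).1 := by
    intro i
    by_contra hi
    by_cases h0 : (g i).1 = 0
    · refine two_nbrs hg hσ ha h2 i (a := ⟨s, by omega⟩) ?_
      intro b hb
      rw [compl_adj, L2_adj] at hb
      apply Fin.ext
      simp only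
      have := b.2
      have hne : (g i).1 ≠ b.1 := fun he => hb.1 (Fin.ext he)
      have h3 := hb.2
      simp only [not_and, not_or, ne_eq] at h3
      have h4 := h3 hb.1
      omega
    · refine two_nbrs hg hσ ha h2 i (a := ⟨s + 1, by omega⟩) ?_
      intro b hb
      rw [compl_adj, L2_adj] at hb
      apply Fin.ext
      simp only
      have := b.2
      have hne : (g i).1 ≠ b.1 := fun he => hb.1 (Fin.ext he)
      have h3 := hb.2
      simp only [not_and, not_or, ne_eq] at h3
      have h4 := h3 hb.1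
      omega
  have := Finset.card_le_card_of_injOn (s := (Finset.univ : Finset (Fin n)))
    (t := Finset.range (n - 1)) (fun i => (g i).1 - s) (by
      intro i _
      simp only [Finset.coe_range, Set.mem_Iio]
      have := (g i).2
      have := h0 i
      omega) (by
      intro i _ j _ hij
      simp only at hij
      have := h0 i
      have := h0 j
      exact hg (Fin.ext (by omega)))
  rw [Finset.card_univ, Fintype.card_fin, Finset.card_range] at this
  omega

/-! ### Third construction -/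

/-- A star with centre `0` whose vertex `2` is moved: it is joined to `1` instead of `0`. -/
def L3 (N : ℕ) : SimpleGraph (Fin N) :=
  SimpleGraph.fromRel fun a b => (a.1 = 0 ∧ b.1 ≠ 2) ∨ (a.1 = 1 ∧ b.1 = 2)

theorem L3_adj {N : ℕ} {a b : Fin N} : (L3 N).Adj a b ↔ a ≠ b ∧
    (((a.1 = 0 ∧ b.1 ≠ 2) ∨ (a.1 = 1 ∧ b.1 = 2)) ∨
      ((b.1 = 0 ∧ a.1 ≠ 2) ∨ (b.1 = 1 ∧ a.1 = 2))) := by
  rw [L3, fromRel_adj]

theorem L3_conn {N : ℕ} (hN : 4 ≤ N) : (L3 N).Connected := by
  rw [connected_iff_exists_forall_reachable]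
  refine ⟨⟨0, by omega⟩, fun w => ?_⟩
  by_cases hw0 : w.1 = 0
  · have : w = ⟨0, by omega⟩ := Fin.ext hw0
    rw [this]
  · by_cases hw2 : w.1 = 2
    · have h1 : (L3 N).Adj ⟨0, by omega⟩ ⟨1, by omega⟩ := by
        rw [L3_adj]; simp
      refine h1.reachable.trans (Adj.reachable ?_)
      rw [L3_adj]
      refine ⟨fun he => ?_, ?_⟩
      · rw [← he] at hw2; simp at hw2
      · simp; omega
    · refine Adj.reachable ?_
      rw [L3_adj]
      refine ⟨fun he => hw0 (by rw [← he]), ?_⟩
      simp; omega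

theorem L3_compl_conn {N : ℕ} (hN : 4 ≤ N) : (L3 N)ᶜ.Connected := by
  rw [connected_iff_exists_forall_reachable]
  refine ⟨⟨3, by omega⟩, fun w => ?_⟩
  by_cases hw3 : w.1 = 3
  · have : w = ⟨3, by omega⟩ := Fin.ext hw3
    rw [this]
  · by_cases hw0 : w.1 = 0
    · have h1 : (L3 N)ᶜ.Adj ⟨3, by omega⟩ ⟨2, by omega⟩ := by
        rw [compl_adj, L3_adj]; simp
      refine h1.reachable.trans (Adj.reachable ?_)
      have : w = ⟨0, by omega⟩ := Fin.ext hw0
      rw [this, compl_adj, L3_adj]; simp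
    · refine Adj.reachable ?_
      rw [compl_adj, L3_adj]
      have hne : (⟨3, by omega⟩ : Fin N) ≠ w := fun he => hw3 (by rw [← he])
      refine ⟨hne, ?_⟩
      rintro ⟨_, h⟩
      have hwN := w.2
      simp only at h
      omega

theorem L3_no_path {N : ℕ} : ¬ (pathGraph 5).IsContained (L3 N) := by
  intro h
  obtain ⟨g, -, hinj, hadj⟩ := of_path h
  obtain ⟨_, _, a0⟩ := hadj 0 (by omega)
  obtain ⟨_, _, a1⟩ := hadj 1 (by omega)
  obtain ⟨_, _, a2⟩ := hadj 2 (by omega)
  obtain ⟨_, _, a3⟩ := hadj 3 (by omega)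
  rw [L3_adj] at a0 a1 a2 a3
  simp only [ne_eq] at a0 a1 a2 a3
  have i02 := hinj 0 (by omega) 2 (by omega)
  have i04 := hinj 0 (by omega) 4 (by omega)
  have i13 := hinj 1 (by omega) 3 (by omega)
  have i24 := hinj 2 (by omega) 4 (by omega)
  have i03 := hinj 0 (by omega) 3 (by omega)
  have i14 := hinj 1 (by omega) 4 (by omega)
  norm_num at a0 a1 a2 a3
  omega

theorem L3_no_cycle {N : ℕ} (hN : 4 ≤ N) : ¬ (cycleGraph N).IsContained (L3 N)ᶜ := by
  intro h
  obtain ⟨g, σ, hg, hσ, ha, h2⟩ := of_cycle (by omega) h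
  have hgs : Function.Surjective g := Finite.surjective_of_injective hg
  obtain ⟨i, hi⟩ := hgs ⟨0, by omega⟩
  refine two_nbrs hg hσ ha h2 i (a := ⟨2, by omega⟩) ?_
  intro b hb
  rw [hi, compl_adj, L3_adj] at hb
  apply Fin.ext
  simp only
  by_contra hb2
  refine hb.2 ⟨hb.1, ?_⟩
  left; left
  exact ⟨rfl, hb2⟩

end Pool.Agent.E8helper93.CR
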