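import Pool.Agent.E8helper93.CR.Red

/-!
# The complement of a connected graph without long paths has cycles of many lengths
-/

set_option autoImplicit false
set_option linter.unusedSectionVars false

namespace Pool.Agent.E8helper93.CR

open Finset

variable {V : Type*} [Fintype V] [DecidableEq V] {R : SimpleGraph V}

theorem first_elem {c : List V} {L : V → Prop} (h : ∃ y ∈ c, L y) :
    ∃ m y r, c = m ++ y :: r ∧ L y ∧ ∀ z ∈ m, ¬ L z := by
  induction c with
  | nil => simp at h
  | cons a c ih =>
    by_cases ha : L a
    · exact ⟨[], a, c, rfl, ha, by simp⟩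
    · obtain ⟨m, y, r, rfl, h1, h2⟩ := ih (by
        obtain ⟨y, hy, hy2⟩ := h
        rcases List.mem_cons.1 hy with rfl | hy
        · exact absurd hy2 ha
        · exact ⟨y, hy, hy2⟩)
      refine ⟨a :: m, y, r, rfl, h1, ?_⟩
      intro z hz
      rcases List.mem_cons.1 hz with rfl | hz
      · exact ha
      · exact h2 z hz

theorem cut {S L : V → Prop} (hSL : ∀ x, S x → ¬ L x) : ∀ (c : List V) (y : V),
    (∃ x ∈ c, S x) → c.getLast? = some y → L y →
    ∃ x' m y', S x' ∧ L y' ∧ (x' :: (m ++ [y'])) <:+: c ∧ ∀ z ∈ m, ¬ S z ∧ ¬ L z := by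
  intro c
  induction c with
  | nil => intro y h; simp at h
  | cons a c ih =>
    intro y h hy hL
    by_cases hS : ∃ x ∈ c, S x
    · have hc : c ≠ [] := by rintro rfl; simp at hS
      have hy' : c.getLast? = some y := by
        cases c with
        | nil => exact absurd rfl hc
        | cons b c => rw [List.getLast?_cons_cons] at hy; exact hy
      obtain ⟨x', m, y', h1, h2, h3, h4⟩ := ih y hS hy' hL
      exact ⟨x', m, y', h1, h2, h3.trans (List.suffix_cons a c).isInfix, h4⟩
    · have ha : S a := by
        obtain ⟨x, hx, hx2⟩ := h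
        rcases List.mem_cons.1 hx with rfl | hx
        · exact hx2
        · exact absurd ⟨x, hx, hx2⟩ hS
      have hyc : y ∈ c := by
        have : y ∈ a :: c := List.mem_of_getLast? hy
        rcases List.mem_cons.1 this with rfl | hh
        · exact absurd hL (hSL _ ha)
        · exact hh
      obtain ⟨m, y', r, rfl, h1, h2⟩ := first_elem (L := L) ⟨y, hyc, hL⟩
      refine ⟨a, m, y', ha, h1, ⟨[], r, by simp⟩, fun z hz => ⟨?_, h2 z hz⟩⟩
      exact fun hz2 => hS ⟨z, List.mem_append_left _ hz, hz2⟩

/-- A clique outside a longest path is small. -/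
theorem clique_small (hR : R.Connected) {l : List V} (h : IsLongest R l) (hl : l ≠ [])
    {S : Finset V} (hS : ∀ x ∈ S, x ∉ l) (hc : ∀ x ∈ S, ∀ y ∈ S, x ≠ y → R.Adj x y) :
    2 * S.card ≤ l.length := by
  classical
  by_contra hcon
  obtain ⟨x, hx⟩ : S.Nonempty := by rw [← Finset.card_pos]; omega
  obtain ⟨y, hy⟩ := List.exists_mem_of_ne_nil l hl
  obtain ⟨w⟩ := hR.preconnected x y
  let q := w.toPath
  have q1 : q.1.support.IsChain R.Adj := q.1.isChain_adj_support
  have q2 : q.1.support.Nodup := q.2.support_nodup
  obtain ⟨x', m, y', h1, h2, h3, h4⟩ := cut (S := fun z => z ∈ S) (L := fun z => z ∈ l)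
    (fun z hz => hS z hz) q.1.support y ⟨x, q.1.start_mem_support, hx⟩
    (by
      rw [List.getLast?_eq_some_getLast (SimpleGraph.Walk.support_ne_nil _)]
      simp) hy
  have c1 : (x' :: (m ++ [y'])).IsChain R.Adj := by
    obtain ⟨s', t', e'⟩ := h3
    have q3 : ((s' ++ (x' :: (m ++ [y']))) ++ t').IsChain R.Adj := by rw [e']; exact q1
    exact isChain_right (isChain_left q3)
  have c2 : (x' :: (m ++ [y'])).Nodup := q2.sublist h3.sublist
  -- the longer half of `l` from `y'`
  obtain ⟨A, C, hAC⟩ := List.append_of_mem h2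
  have htail : ∃ T : List V, T.IsChain R.Adj ∧ T.Nodup ∧ T.head? = some y' ∧ (∀ z ∈ T, z ∈ l) ∧
      l.length + 1 ≤ 2 * T.length := by
    have n0 := h.1.1
    have k0 := h.1.2
    rw [hAC] at n0 k0
    have e : A ++ y' :: C = (A ++ [y']) ++ C := by simp
    by_cases hlen : A.length ≤ C.length
    · refine ⟨y' :: C, isChain_right k0, (List.nodup_append.1 n0).2.1, rfl, ?_, ?_⟩
      · intro z hz; rw [hAC]; exact List.mem_append_right _ hz
      · rw [hAC]; simp; omega
    · rw [e] at n0 k0
      refine ⟨(A ++ [y']).reverse, rev_chain (isChain_left k0),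
        List.nodup_reverse.2 (List.nodup_append.1 n0).1, by simp, ?_, ?_⟩
      · intro z hz
        rw [hAC, e]
        exact List.mem_append_left _ (List.mem_reverse.1 hz)
      · rw [hAC]; simp; omega
  obtain ⟨T, t1, t2, t3, t4, t5⟩ := htail
  obtain ⟨T', rfl⟩ : ∃ T', T = y' :: T' := by
    cases T with
    | nil => simp at t3
    | cons a T' => simp at t3; exact ⟨T', by rw [t3]⟩
  -- the path
  have s1 : ((S.erase x').toList).IsChain R.Adj := by
    apply List.Pairwise.isChain
    refine List.Pairwise.imp_of_mem ?_ (S.erase x').nodup_toList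
    intro a b ha hb hab
    rw [Finset.mem_toList] at ha hb
    exact hc a (Finset.mem_of_mem_erase ha) b (Finset.mem_of_mem_erase hb) hab
  have c3 : ((x' :: m) ++ (y' :: T')).IsChain R.Adj := by
    have c1' : ((x' :: m) ++ [y']).IsChain R.Adj := c1
    rw [List.isChain_append] at c1' ⊢
    refine ⟨c1'.1, t1, ?_⟩
    intro a ha b hb
    simp only [List.head?_cons, Option.mem_some_iff] at hb
    subst hb
    exact c1'.2.2 a ha y' (by simp)
  have hp : IsP R ((S.erase x').toList ++ ((x' :: m) ++ (y' :: T'))) := by
    refine ⟨?_, ?_⟩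
    · rw [List.nodup_append, List.nodup_append]
      have c2' : ((x' :: m) ++ [y']).Nodup := c2
      rw [List.nodup_append] at c2'
      refine ⟨(S.erase x').nodup_toList, ⟨c2'.1, t2, ?_⟩, ?_⟩
      · intro a ha b hb
        rintro rfl
        have hbl := t4 a hb
        rcases List.mem_cons.1 ha with rfl | ha
        · exact hS a h1 hbl
        · exact (h4 a ha).2 hbl
      · intro a ha b hb
        rintro rfl
        rw [Finset.mem_toList] at ha
        rcases List.mem_append.1 hb with hb | hb
        · rcases List.mem_cons.1 hb with rfl | hb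
          · exact (Finset.mem_erase.1 ha).1 rfl
          · exact (h4 a hb).1 (Finset.mem_of_mem_erase ha)
        · exact hS a (Finset.mem_of_mem_erase ha) (t4 a hb)
    · rw [List.isChain_append]
      refine ⟨s1, c3, ?_⟩
      intro a ha b hb
      have hbx : b = x' := by
        simpa using hb.symm
      have haS := List.mem_of_getLast? ha
      rw [Finset.mem_toList] at haS
      rw [hbx]
      exact hc a (Finset.mem_of_mem_erase haS) x' h1 (Finset.mem_erase.1 haS).1
  have := h.2 _ hp
  rw [List.length_append, Finset.length_toList, Finset.card_erase_of_mem h1, List.length_append,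
    List.length_cons] at this
  have hSpos : 0 < S.card := Finset.card_pos.2 ⟨x', h1⟩
  omega

/-- The configuration of a longest path. -/
theorem conf (hR : R.Connected) {l : List V} (h : IsLongest R l) (hp : 2 ≤ l.length)
    (hN : l.length < Fintype.card V) (x0 : V) :
    Conf Rᶜ.Adj (Finset.univ.filter fun x => x ∉ l) (fun i => l.getD i x0) l.length
      ((l.length - 2) / 2) := by
  have hget : ∀ i < l.length, l[i]? = some (l.getD i x0) := by
    intro i hi
    rw [List.getD_eq_getElem _ _ hi, List.getElem?_eq_getElem hi]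
  have hmem : ∀ i < l.length, l.getD i x0 ∈ l := by
    intro i hi
    exact List.mem_of_getElem? (hget i hi)
  have hhead : l.head? = some (l.getD 0 x0) := by
    rw [List.head?_eq_getElem?]; exact hget 0 (by omega)
  have hlast : l.getLast? = some (l.getD (l.length - 1) x0) := by
    rw [List.getLast?_eq_getElem?]; exact hget _ (by omega)
  have hinj : ∀ i < l.length, ∀ j < l.length, l.getD i x0 = l.getD j x0 → i = j := by
    intro i hi j hj he
    rw [List.getD_eq_getElem _ _ hi, List.getD_eq_getElem _ _ hj] at he
    exact (h.1.1.getElem_inj_iff).1 he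
  have hQ : ∀ u ∈ (Finset.univ.filter fun x => x ∉ l), u ∉ l := by
    intro u hu; exact (Finset.mem_filter.1 hu).2
  -- not blue means red
  have hred : ∀ u ∈ (Finset.univ.filter fun x => x ∉ l), ∀ i < l.length,
      ¬ Rᶜ.Adj u (l.getD i x0) → R.Adj u (l.getD i x0) := by
    intro u hu i hi hb
    rw [SimpleGraph.compl_adj] at hb
    by_contra hr
    exact hb ⟨fun he => hQ u hu (he ▸ hmem i hi), hr⟩
  have hblue : ∀ x y, x ≠ y → ¬ R.Adj x y → Rᶜ.Adj x y := by
    intro x y h1 h2
    rw [SimpleGraph.compl_adj]; exact ⟨h1, h2⟩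
  refine ⟨fun x y hxy => hxy.symm, by omega, hinj, ?_, ?_, ?_, ?_, ?_, ?_, ?_, ?_, ?_, ?_, ?_⟩
  · intro i hi hm
    exact hQ _ hm (hmem i hi)
  · refine hblue _ _ ?_ ?_
    · intro he
      have := hinj 0 (by omega) _ (by omega) he
      omega
    · intro ha
      exact no_closed hR hN h.2 h.1 hhead hlast ha.symm
  · intro u hu
    refine hblue _ _ ?_ ?_
    · intro he; exact hQ u hu (he ▸ hmem 0 (by omega))
    · intro ha; exact no_start h (hQ u hu) hhead ha.symm
  · intro u hu
    refine hblue _ _ ?_ ?_
    · intro he; exact hQ u hu (he ▸ hmem _ (by omega))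
    · intro ha; exact no_end h (hQ u hu) hlast ha
  · intro u hu i hi
    by_contra hcon
    push Not at hcon
    exact no_insert h (m := [u]) ⟨by simp, by simp⟩
      (by intro z hz; rw [List.mem_singleton] at hz; rw [hz]; exact hQ u hu)
      (hget i (by omega)) (hget (i + 1) hi) rfl rfl
      (hred u hu i (by omega) hcon.1).symm (hred u hu (i + 1) hi hcon.2)
  · intro u hu u' hu' hne i hi h1 h2
    refine hblue _ _ hne ?_
    intro ha
    exact no_insert h (m := [u, u']) ⟨by simpa using hne, by simpa using ha⟩
      (by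
        intro z hz
        rw [List.mem_cons, List.mem_singleton] at hz
        rcases hz with rfl | rfl
        · exact hQ _ hu
        · exact hQ _ hu')
      (hget i (by omega)) (hget (i + 1) hi) rfl rfl
      (hred u hu i (by omega) h1).symm (hred u' hu' (i + 1) hi h2)
  · intro u hu u' hu' hne i k hik hk h1 h2 h3 h4
    exact no_cross h hik (hQ u hu) (hQ u' hu') hne (hget i (by omega)) (hget (i + 1) (by omega))
      (hget k (by omega)) (hget (k + 1) hk) (hred u hu i (by omega) h1)
      (hred u' hu' (i + 1) (by omega) h2) (hred u hu k (by omega) h3)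
      (hred u' hu' (k + 1) hk h4)
  · intro u hu i hi h1
    refine hblue _ _ ?_ ?_
    · intro he
      have := hinj _ (by omega) _ (by omega) he
      have h2 := hred u hu (i + 1) hi h1
      omega
    · intro ha
      exact no_turn h (hQ u hu) (hget i (by omega)) (hget (i + 1) hi) hlast ha
        (hred u hu (i + 1) hi h1)
  · intro u hu i hi h1
    refine hblue _ _ ?_ ?_
    · intro he
      have := hinj _ (by omega) _ (by omega) he
      omega
    · intro ha
      exact no_turn' h (hQ u hu) (hget i (by omega)) (hget (i + 1) hi) hhead ha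
        (hred u hu i (by omega) h1)
  · intro i hi1 hi2
    by_contra hcon
    push Not at hcon
    have r1 : R.Adj (l.getD (l.length - 1) x0) (l.getD i x0) := by
      by_contra hr
      exact hcon.1 (hblue _ _ (fun he => by
        have := hinj _ (by omega) _ (by omega) he
        omega) hr)
    have r2 : R.Adj (l.getD 0 x0) (l.getD (i + 1) x0) := by
      by_contra hr
      exact hcon.2 (hblue _ _ (fun he => by
        have := hinj _ (by omega) _ (by omega) he
        omega) hr)
    obtain ⟨A, C, hAC, a1, a2, a4, a5, a3⟩ := split2 (hget i (by omega)) (hget (i + 1) (by omega))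
    have hP : IsP R (A ++ C.reverse) := by
      have hnd := h.1.1
      have hch := h.1.2
      rw [hAC] at hnd hch
      rw [List.nodup_append] at hnd
      refine ⟨?_, ?_⟩
      · rw [List.nodup_append, List.nodup_reverse]
        refine ⟨hnd.1, hnd.2.1, ?_⟩
        intro a ha b hb
        rw [List.mem_reverse] at hb
        exact hnd.2.2 a ha b hb
      · exact chain_join (isChain_left hch) (rev_chain (isChain_right hch)) a1
          (by rw [List.head?_reverse, a5]; exact hlast) r1.symm
    have hlen : (A ++ C.reverse).length = l.length := by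
      rw [hAC]; simp
    have hA0 : A ≠ [] := by rintro rfl; simp at a3
    have hC0 : C.reverse ≠ [] := by
      intro hh
      rw [List.reverse_eq_nil_iff] at hh
      rw [hh] at a2; simp at a2
    refine no_closed hR (l := A ++ C.reverse) (by rw [hlen]; exact hN)
      (fun l' hl' => by rw [hlen]; exact h.2 l' hl') hP (x := l.getD 0 x0)
      (y := l.getD (i + 1) x0) ?_ ?_ r2.symm
    · rw [List.head?_append_of_ne_nil _ hA0, a4]; exact hhead
    · rw [List.getLast?_append_of_ne_nil _ hC0, List.getLast?_reverse]; exact a2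
  · intro S hSQ hS
    have h1 : ∀ x ∈ S, x ∉ l := fun x hx => hQ x (hSQ hx)
    have h2 : ∀ x ∈ S, ∀ y ∈ S, x ≠ y → R.Adj x y := by
      intro x hx y hy hxy
      by_contra hr
      exact hS x hx y hy hxy (hblue _ _ hxy hr)
    have := clique_small hR h (by rintro rfl; simp at hp) h1 h2
    omega

/-- **Main theorem**: if `R` is a connected graph on `N` vertices whose longest path has
`p` vertices, `2 ≤ p < N`, then the complement of `R` contains cycles of all lengths `n` with
`3 ≤ n ≤ 2 (N - p) + 2` and `n ≤ N + 1 - ⌈p / 2⌉`. -/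
theorem main (hR : R.Connected) {l : List V} (h : IsLongest R l) (hp : 2 ≤ l.length)
    (hN : l.length < Fintype.card V) {n : ℕ} (h3 : 3 ≤ n)
    (hn1 : n + 2 * l.length ≤ 2 * Fintype.card V + 2)
    (hn2 : n + l.length ≤ Fintype.card V + 1 + l.length / 2) : HasCyc Rᶜ.Adj n := by
  obtain ⟨x0⟩ := hR.nonempty
  have hc := conf hR h hp hN x0
  have hQ : (Finset.univ.filter fun x => x ∉ l).card = Fintype.card V - l.length := by
    have e : (Finset.univ.filter fun x => x ∉ l) = l.toFinsetᶜ := by
      ext x; simp
    rw [e, Finset.card_compl, List.toFinset_card_of_nodup h.1.1]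
  exact cycles hc h3 (by rw [hQ]; omega) (by rw [hQ]; omega)

end Pool.Agent.E8helper93.CR
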