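import Pool.Agent.E8helper93.CR.Cyc

/-!
# Longest red paths
-/

set_option autoImplicit false
set_option linter.unusedSectionVars false

namespace Pool.Agent.E8helper93.CR

open Finset

variable {V : Type*} [Fintype V] [DecidableEq V] {R : SimpleGraph V}

/-- A list of vertices is a path. -/
def IsP (R : SimpleGraph V) (l : List V) : Prop := l.Nodup ∧ l.IsChain R.Adj

/-- A longest path. -/
def IsLongest (R : SimpleGraph V) (l : List V) : Prop :=
  IsP R l ∧ ∀ l', IsP R l' → l'.length ≤ l.length

theorem IsP.length_le {l : List V} (h : IsP R l) : l.length ≤ Fintype.card V :=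
  h.1.length_le_card

theorem exists_longest (R : SimpleGraph V) : ∃ l, IsLongest R l := by
  classical
  have h1 : ∃ n, ∃ l, IsP R l ∧ l.length = n := ⟨0, [], ⟨by simp, by simp⟩, rfl⟩
  have h2 : ∃ n ≤ Fintype.card V, ∃ l, IsP R l ∧ l.length = n :=
    ⟨0, Nat.zero_le _, [], ⟨by simp, by simp⟩, rfl⟩
  let n := Nat.findGreatest (fun n => ∃ l, IsP R l ∧ l.length = n) (Fintype.card V)
  have hn : ∃ l, IsP R l ∧ l.length = n := by
    obtain ⟨k, hk, hk2⟩ := h2
    exact Nat.findGreatest_spec (P := fun n => ∃ l, IsP R l ∧ l.length = n) hk hk2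
  obtain ⟨l, hl, hln⟩ := hn
  refine ⟨l, hl, fun l' hl' => ?_⟩
  rw [hln]
  exact Nat.le_findGreatest hl'.length_le ⟨l', hl', rfl⟩

/-- Splitting a list at a position. -/
theorem split2 {l : List V} {i : ℕ} {x y : V} (hx : l[i]? = some x) (hy : l[i + 1]? = some y) :
    ∃ A C, l = A ++ C ∧ A.getLast? = some x ∧ C.head? = some y ∧ A.head? = l.head? ∧
      C.getLast? = l.getLast? ∧ A.length = i + 1 := by
  have hi : i + 1 < l.length := by
    by_contra hh
    rw [List.getElem?_eq_none (by omega)] at hy
    simp at hy
  refine ⟨l.take (i + 1), l.drop (i + 1), (List.take_append_drop _ _).symm, ?_, ?_, ?_, ?_, ?_⟩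
  · rw [List.getLast?_eq_getElem?, List.length_take, Nat.min_eq_left (by omega),
      List.getElem?_take_of_lt (by omega)]
    exact hx
  · rw [List.head?_eq_getElem?, List.getElem?_drop]
    exact hy
  · rw [List.head?_eq_getElem?, List.head?_eq_getElem?, List.getElem?_take_of_lt (by omega)]
  · rw [List.getLast?_eq_getElem?, List.getLast?_eq_getElem?, List.getElem?_drop,
      List.length_drop]
    congr 1
    omega
  · rw [List.length_take]; omega

theorem chain_join {r : V → V → Prop} {A C : List V} {x y : V} (hA : A.IsChain r)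
    (hC : C.IsChain r) (hx : A.getLast? = some x) (hy : C.head? = some y) (hxy : r x y) :
    (A ++ C).IsChain r := by
  rw [List.isChain_append]
  refine ⟨hA, hC, ?_⟩
  intro a ha c hc
  rw [hx, Option.mem_some_iff] at ha
  rw [hy, Option.mem_some_iff] at hc
  rw [← ha, ← hc]; exact hxy

theorem rev_chain {A : List V} (hA : A.IsChain R.Adj) : A.reverse.IsChain R.Adj := by
  rw [List.isChain_reverse]
  exact hA.imp fun a b h => h.symm

theorem isChain_left {A C : List V} {r : V → V → Prop} (h : (A ++ C).IsChain r) :
    A.IsChain r := (List.isChain_append.1 h).1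

theorem isChain_right {A C : List V} {r : V → V → Prop} (h : (A ++ C).IsChain r) :
    C.IsChain r := (List.isChain_append.1 h).2.1

section

variable {l : List V}

theorem no_start (h : IsLongest R l) {u x : V} (hu : u ∉ l) (hx : l.head? = some x) :
    ¬ R.Adj u x := by
  intro ha
  have : IsP R ([u] ++ l) :=
    ⟨by simpa using ⟨hu, h.1.1⟩, chain_join (by simp) h.1.2 rfl hx ha⟩
  have := h.2 _ this
  simp at this

theorem no_end (h : IsLongest R l) {u x : V} (hu : u ∉ l) (hx : l.getLast? = some x) :
    ¬ R.Adj x u := by
  intro ha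
  have : IsP R (l ++ [u]) := by
    refine ⟨?_, chain_join h.1.2 (by simp) hx rfl ha⟩
    rw [List.nodup_append]
    refine ⟨h.1.1, by simp, ?_⟩
    intro a ha b hb
    rw [List.mem_singleton] at hb
    rintro rfl
    exact hu (hb ▸ ha)
  have := h.2 _ this
  simp at this

/-- No path can be inserted between two consecutive vertices. -/
theorem no_insert (h : IsLongest R l) {m : List V} {i : ℕ} {x y a b : V} (hm : IsP R m)
    (hd : ∀ u ∈ m, u ∉ l) (hx : l[i]? = some x) (hy : l[i + 1]? = some y)
    (ha : m.head? = some a) (hb : m.getLast? = some b) (hxa : R.Adj x a) (hby : R.Adj b y) :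
    False := by
  obtain ⟨A, C, rfl, h1, h2, -, -, -⟩ := split2 hx hy
  have hnd := h.1.1
  have hch := h.1.2
  rw [List.nodup_append] at hnd
  have hp : IsP R (A ++ (m ++ C)) := by
    refine ⟨?_, ?_⟩
    · rw [List.nodup_append, List.nodup_append]
      refine ⟨hnd.1, ⟨hm.1, hnd.2.1, ?_⟩, ?_⟩
      · rintro u hu c hc rfl
        exact hd u hu (List.mem_append_right _ hc)
      · rintro u hu c hc rfl
        rcases List.mem_append.1 hc with hc | hc
        · exact hd u hc (List.mem_append_left _ hu)
        · exact hnd.2.2 u hu u hc rfl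
    · refine chain_join (isChain_left hch) (chain_join hm.2 (isChain_right hch) hb h2 hby) h1 ?_ hxa
      rw [List.head?_append, ha]; rfl
  have := h.2 _ hp
  have hm0 : m ≠ [] := by rintro rfl; simp at ha
  have h5 := List.length_pos_of_ne_nil hm0
  rw [List.length_append, List.length_append, List.length_append] at this
  omega

/-- Fact 5: crossing detours. -/
theorem no_cross (h : IsLongest R l) {i k : ℕ} (hik : i < k) {x y z w u u' : V}
    (hu : u ∉ l) (hu' : u' ∉ l) (huu : u ≠ u')
    (hx : l[i]? = some x) (hy : l[i + 1]? = some y) (hz : l[k]? = some z)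
    (hw : l[k + 1]? = some w)
    (h1 : R.Adj u x) (h2 : R.Adj u' y) (h3 : R.Adj u z) (h4 : R.Adj u' w) : False := by
  obtain ⟨A, C, rfl, a1, a2, -, -, a3⟩ := split2 hx hy
  have hnd := h.1.1
  have hch := h.1.2
  rw [List.getElem?_append_right (by omega)] at hz hw
  have hk : k + 1 - A.length = (k - A.length) + 1 := by omega
  rw [hk] at hw
  obtain ⟨D, E, rfl, b1, b2, b4, -, -⟩ := split2 hz hw
  rw [List.nodup_append, List.nodup_append] at hnd
  obtain ⟨n1, ⟨n2, n3, n4⟩, n5⟩ := hnd
  have hD0 : D ≠ [] := by rintro rfl; simp at b1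
  have hDh : D.head? = some y := by
    rw [List.head?_append] at a2
    cases D with
    | nil => exact absurd rfl hD0
    | cons d D => simpa using a2
  rw [List.mem_append, List.mem_append] at hu hu'
  push Not at hu hu'
  have hp : IsP R (A ++ (u :: (D.reverse ++ (u' :: E)))) := by
    refine ⟨?_, ?_⟩
    · rw [List.nodup_append, List.nodup_cons, List.nodup_append, List.nodup_cons,
        List.nodup_reverse]
      refine ⟨n1, ⟨?_, n2, ⟨hu'.2.2, n3⟩, ?_⟩, ?_⟩
      · simp only [List.mem_append, List.mem_reverse, List.mem_cons]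
        rintro (hh | rfl | hh)
        · exact hu.2.1 hh
        · exact huu rfl
        · exact hu.2.2 hh
      · intro d hd e he
        rw [List.mem_reverse] at hd
        rcases List.mem_cons.1 he with rfl | he
        · rintro rfl; exact hu'.2.1 hd
        · exact n4 d hd e he
      · intro a ha b hb
        simp only [List.mem_append, List.mem_reverse, List.mem_cons] at hb
        rintro rfl
        rcases hb with rfl | hb | rfl | hb
        · exact hu.1 ha
        · exact n5 a ha a (List.mem_append_left _ hb) rfl
        · exact hu'.1 ha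
        · exact n5 a ha a (List.mem_append_right _ hb) rfl
    · have c1 : A.IsChain R.Adj := isChain_left hch
      have c2 : D.IsChain R.Adj := isChain_left (isChain_right hch)
      have c3 : E.IsChain R.Adj := isChain_right (isChain_right hch)
      have d1 : (u' :: E).IsChain R.Adj := by
        have := chain_join (r := R.Adj) (A := [u']) (C := E) (by simp) c3 rfl b2 h4
        simpa using this
      have d2 : (D.reverse ++ (u' :: E)).IsChain R.Adj :=
        chain_join (rev_chain c2) d1 (by rw [List.getLast?_reverse]; exact hDh) rfl h2.symm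
      have d3 : (u :: (D.reverse ++ (u' :: E))).IsChain R.Adj := by
        have := chain_join (r := R.Adj) (A := [u]) (C := D.reverse ++ (u' :: E)) (y := z) (by simp)
          d2 rfl (by rw [List.head?_append, List.head?_reverse, b1]; rfl) h3
        simpa using this
      exact chain_join c1 d3 a1 rfl h1.symm
  have := h.2 _ hp
  simp at this

/-- Fact 6. -/
theorem no_turn (h : IsLongest R l) {i : ℕ} {x y e u : V} (hu : u ∉ l)
    (hx : l[i]? = some x) (hy : l[i + 1]? = some y) (he : l.getLast? = some e)
    (h1 : R.Adj e x) (h2 : R.Adj u y) : False := by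
  obtain ⟨A, C, rfl, a1, a2, -, a4, a3⟩ := split2 hx hy
  have hnd := h.1.1
  have hch := h.1.2
  rw [List.nodup_append] at hnd
  rw [List.mem_append] at hu
  push Not at hu
  have hp : IsP R (A ++ (C.reverse ++ [u])) := by
    refine ⟨?_, ?_⟩
    · rw [List.nodup_append, List.nodup_append, List.nodup_reverse]
      refine ⟨hnd.1, ⟨hnd.2.1, by simp, ?_⟩, ?_⟩
      · intro c hc b hb
        rw [List.mem_reverse] at hc
        rw [List.mem_singleton] at hb
        rintro rfl
        exact hu.2 (hb ▸ hc)
      · intro a ha b hb
        rw [List.mem_append, List.mem_reverse, List.mem_singleton] at hb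
        rintro rfl
        rcases hb with hb | rfl
        · exact hnd.2.2 a ha a hb rfl
        · exact hu.1 ha
    · have c2 : C.reverse.IsChain R.Adj := rev_chain (isChain_right hch)
      have d1 : (C.reverse ++ [u]).IsChain R.Adj :=
        chain_join c2 (by simp) (by rw [List.getLast?_reverse]; exact a2) rfl h2.symm
      refine chain_join (y := e) (isChain_left hch) d1 a1 ?_ h1.symm
      rw [List.head?_append, List.head?_reverse, a4, he]; rfl
  have := h.2 _ hp
  simp at this

/-- Fact 6, reversed. -/
theorem no_turn' (h : IsLongest R l) {i : ℕ} {x y s u : V} (hu : u ∉ l)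
    (hx : l[i]? = some x) (hy : l[i + 1]? = some y) (hs : l.head? = some s)
    (h1 : R.Adj s y) (h2 : R.Adj u x) : False := by
  obtain ⟨A, C, rfl, a1, a2, a4, -, a3⟩ := split2 hx hy
  have hnd := h.1.1
  have hch := h.1.2
  rw [List.nodup_append] at hnd
  rw [List.mem_append] at hu
  push Not at hu
  have hp : IsP R ([u] ++ (A.reverse ++ C)) := by
    refine ⟨?_, ?_⟩
    · rw [List.nodup_append, List.nodup_append, List.nodup_reverse]
      refine ⟨by simp, ⟨hnd.1, hnd.2.1, ?_⟩, ?_⟩
      · intro a ha c hc
        rw [List.mem_reverse] at ha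
        exact hnd.2.2 a ha c hc
      · intro a ha b hb
        rw [List.mem_append, List.mem_reverse] at hb
        rw [List.mem_singleton] at ha
        rintro rfl
        rcases hb with hb | hb
        · exact hu.1 (ha ▸ hb)
        · exact hu.2 (ha ▸ hb)
    · have c2 : A.reverse.IsChain R.Adj := rev_chain (isChain_left hch)
      have d1 : (A.reverse ++ C).IsChain R.Adj :=
        chain_join c2 (isChain_right hch) (by rw [List.getLast?_reverse, a4, hs]) a2 h1
      refine chain_join (y := x) (by simp) d1 rfl ?_ h2
      rw [List.head?_append, List.head?_reverse, a1]; rfl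
  have := h.2 _ hp
  simp at this

end

/-- In a connected graph the vertices of a longest path that does not contain all vertices do not
form a cycle. -/
theorem no_closed (hR : R.Connected) {l : List V} (hl : l.length < Fintype.card V)
    (h : ∀ l', IsP R l' → l'.length ≤ l.length) (hc : IsP R l) {x y : V} (hx : l.head? = some x)
    (hy : l.getLast? = some y) (hyx : R.Adj y x) : False := by
  classical
  obtain ⟨z, hz⟩ : ∃ z, z ∉ l := by
    by_contra hcon
    push Not at hcon
    have : (Finset.univ : Finset V) ⊆ l.toFinset := fun z _ => List.mem_toFinset.2 (hcon z)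
    have := Finset.card_le_card this
    rw [Finset.card_univ] at this
    have := List.toFinset_card_le l
    omega
  have hx' : x ∈ l := List.mem_of_mem_head? (by rw [hx]; rfl)
  -- an edge that leaves the set of vertices of `l`
  obtain ⟨w⟩ := hR.preconnected x z
  obtain ⟨d, hd, hd1, hd2⟩ := w.exists_boundary_dart {v | v ∈ l} hx' hz
  have ha : R.Adj d.fst d.snd := d.adj
  obtain ⟨A, C, rfl⟩ := List.append_of_mem (a := d.fst) hd1
  have hnd := hc.1
  have hch := hc.2
  rw [List.nodup_append] at hnd
  -- the rotated path `C ++ A ++ [d.fst] ++ [d.snd]`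
  have hnd2 : ((C ++ (A ++ [d.fst])) ++ [d.snd]).Nodup := by
    have h1 : (A ++ d.fst :: C).Perm (C ++ (A ++ [d.fst])) := by
      have : A ++ d.fst :: C = (A ++ [d.fst]) ++ C := by simp
      rw [this]
      exact List.perm_append_comm
    rw [List.nodup_append]
    refine ⟨(h1.nodup_iff).1 hc.1, by simp, ?_⟩
    intro a ha b hb
    rw [List.mem_singleton] at hb
    rintro rfl
    rw [← h1.mem_iff] at ha
    exact hd2 (hb ▸ ha)
  have hch1 : (A ++ [d.fst]).IsChain R.Adj := by
    have : A ++ d.fst :: C = (A ++ [d.fst]) ++ C := by simp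
    rw [this] at hch
    exact isChain_left hch
  have hch2 : (C ++ (A ++ [d.fst])).IsChain R.Adj := by
    cases C with
    | nil => simpa using hch1
    | cons c C =>
      have : A ++ d.fst :: c :: C = (A ++ [d.fst]) ++ (c :: C) := by simp
      rw [this] at hch hx hy
      refine chain_join (x := y) (y := x) (isChain_right hch) hch1 ?_ ?_ hyx
      · rw [List.getLast?_append_of_ne_nil _ (by simp)] at hy
        exact hy
      · rw [List.head?_append] at hx
        cases A with
        | nil => simpa using hx
        | cons a A => simpa using hx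
  have hp : IsP R ((C ++ (A ++ [d.fst])) ++ [d.snd]) := by
    refine ⟨hnd2, chain_join (x := d.fst) hch2 (by simp) ?_ rfl ha⟩
    rw [← List.append_assoc, List.getLast?_append]
    simp
  have := h _ hp
  simp at this
  omega

end Pool.Agent.E8helper93.CR
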