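import Pool.Agent.E8helper93.CR.Main

/-!
# The upper bound
-/

set_option autoImplicit false
set_option linter.unusedSectionVars false

namespace Pool.Agent.E8helper93.CR

open Finset SimpleGraph

variable {V : Type*} [Fintype V] [DecidableEq V] {R : SimpleGraph V}

theorem path_contained {l : List V} (h : IsP R l) {m : ℕ} (hm : m ≤ l.length) :
    (pathGraph m).IsContained R := by
  have hch := List.isChain_iff_getElem.1 h.2
  refine ⟨⟨⟨fun i => l[i.1]'(lt_of_lt_of_le i.2 hm), ?_⟩, ?_⟩⟩
  · intro a b hab
    rw [pathGraph_adj] at hab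
    have ha := a.2
    have hb := b.2
    rcases hab with hab | hab
    · have := hch a.1 (by omega)
      simp only [hab] at this
      exact this
    · have := hch b.1 (by omega)
      simp only [hab] at this
      exact this.symm
  · intro a b hab
    exact Fin.ext ((h.1.getElem_inj_iff).1 hab)

theorem sub_val {n : ℕ} (a b : Fin n) (h : (a - b).val = 1) :
    a.val = b.val + 1 ∨ (a.val = 0 ∧ b.val + 1 = n) := by
  rw [Fin.val_sub] at h
  have ha := a.2
  have hb := b.2
  rcases Nat.lt_or_ge a.val b.val with hlt | hge
  · rw [Nat.mod_eq_of_lt (by omega)] at h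
    right; omega
  · have e : n - b.val + a.val = n + (a.val - b.val) := by omega
    rw [e, Nat.add_mod_left, Nat.mod_eq_of_lt (by omega)] at h
    left; omega

theorem cyc_contained {B : SimpleGraph V} {n : ℕ} (h : HasCyc B.Adj n) :
    (cycleGraph n).IsContained B := by
  obtain ⟨z, l, z', h1, h2, h3, h4, h5⟩ := h
  have hlen : (z :: l).length = n := by simpa using h3
  have hch := List.isChain_iff_getElem.1 h2
  have hlast : (z :: l)[n - 1]? = some z' := by
    rw [List.getLast?_eq_getElem?, hlen] at h4; exact h4
  have key : ∀ a b : Fin n, (a - b).val = 1 →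
      B.Adj ((z :: l)[b.1]'(hlen ▸ b.2)) ((z :: l)[a.1]'(hlen ▸ a.2)) := by
    intro a b hab
    have ha := a.2
    have hb := b.2
    rcases sub_val a b hab with hh | ⟨hh1, hh2⟩
    · have := hch b.1 (by rw [hlen]; omega)
      simp only [hh]
      exact this
    · have e1 : (z :: l)[a.1]'(hlen ▸ a.2) = z := by simp only [hh1]; rfl
      have e2 : (z :: l)[b.1]'(hlen ▸ b.2) = z' := by
        have hb' : b.1 = n - 1 := by omega
        have : (z :: l)[b.1]? = some z' := by rw [hb']; exact hlast
        exact (List.getElem?_eq_some_iff.1 this).2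
      rw [e1, e2]; exact h5
  refine ⟨⟨⟨fun i => (z :: l)[i.1]'(hlen ▸ i.2), ?_⟩, ?_⟩⟩
  · intro a b hab
    rw [cycleGraph_adj'] at hab
    rcases hab with hab | hab
    · exact (key a b hab).symm
    · exact key b a hab
  · intro a b hab
    exact Fin.ext ((h1.getElem_inj_iff).1 hab)

/-- A connected graph whose complement is connected has a path on four vertices. -/
theorem four (hR : R.Connected) (hB : Rᶜ.Connected) (hV : 4 ≤ Fintype.card V) {l : List V}
    (h : IsLongest R l) : 4 ≤ l.length := by
  by_contra hcon
  obtain ⟨x0⟩ := hR.nonempty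
  rcases l with _ | ⟨a, _ | ⟨b, _ | ⟨c, _ | ⟨d, l⟩⟩⟩⟩
  · have := h.2 [x0] ⟨by simp, by simp⟩
    simp at this
  · -- one vertex
    obtain ⟨y, hy⟩ : ∃ y, y ≠ a := by
      have : Nontrivial V := Fintype.one_lt_card_iff_nontrivial.1 (by omega)
      exact exists_ne a
    obtain ⟨w⟩ := hR.preconnected a y
    obtain ⟨d, -, -, -⟩ := w.exists_boundary_dart {a} rfl hy
    have := h.2 [d.fst, d.snd] ⟨by simp, by simp⟩
    simp at this
  · have hab : R.Adj a b := by simpa using h.1.2
    exact no_closed hR (l := [a, b]) (by simp; omega) h.2 h.1 rfl rfl hab.symm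
  · -- three vertices
    have hch := h.1.2
    have hnd := h.1.1
    simp at hch hnd
    have hall : ∀ u, u ≠ b → R.Adj u b := by
      intro u hu
      by_contra hub
      obtain ⟨w⟩ := hR.preconnected u b
      let q := w.toPath
      have q1 : q.1.support.IsChain R.Adj := q.1.isChain_adj_support
      have q2 : q.1.support.Nodup := q.2.support_nodup
      have q3 := h.2 _ ⟨q2, q1⟩
      have q4 : q.1.support.head? = some u := by
        rw [List.head?_eq_some_head (SimpleGraph.Walk.support_ne_nil _)]; simp
      have q5 : q.1.support.getLast? = some b := by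
        rw [List.getLast?_eq_some_getLast (SimpleGraph.Walk.support_ne_nil _)]; simp
      generalize q.1.support = s at q1 q2 q3 q4 q5
      rcases s with _ | ⟨x, _ | ⟨y, _ | ⟨z, _ | ⟨t, s⟩⟩⟩⟩
      · simp at q4
      · simp at q4 q5
        exact hu (q4.symm.trans q5)
      · simp at q1 q4 q5
        rw [q4, q5] at q1
        exact hub q1
      · simp at q1 q2 q4 q5
        subst q4 q5
        -- the path `x, y, z` continued by `a` or `c`
        by_cases hya : y = a
        · have hxc : x ≠ c := by
            rintro rfl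
            exact hub hch.2.symm
          have := h.2 [x, y, z, c] ⟨by
            simp
            refine ⟨⟨q2.1.1, q2.1.2, hxc⟩, ⟨q2.2, ?_⟩, ?_⟩
            · rw [hya]; exact hnd.1.2
            · exact hnd.2, by simp; exact ⟨q1.1, q1.2, hch.2⟩⟩
          simp at this
        · have hxa : x ≠ a := by
            rintro rfl
            exact hub hch.1
          have := h.2 [x, y, z, a] ⟨by
            simp
            refine ⟨⟨q2.1.1, q2.1.2, hxa⟩, ⟨q2.2, hya⟩, ?_⟩
            exact fun he => hnd.1.1 he.symm, by simp; exact ⟨q1.1, q1.2, hch.1.symm⟩⟩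
          simp at this
      · simp at q3
        omega
    obtain ⟨w⟩ := hB.preconnected b a
    have hba : b ≠ a := fun he => hnd.1.1 he.symm
    obtain ⟨d, -, hd1, hd2⟩ := w.exists_boundary_dart {b} rfl (fun he => hba (Eq.symm he))
    have hd := d.adj
    rw [Set.mem_singleton_iff] at hd1
    rw [compl_adj, hd1] at hd
    exact hd.2 (hall _ hd.1.symm).symm
  · simp at hcon

/-- The upper bound for large `N`. -/
theorem upper (hR : R.Connected) (hB : Rᶜ.Connected) {m n : ℕ} (hn : 3 ≤ n)
    (h4 : 4 ≤ Fintype.card V)
    (hN : m ≤ 4 ∨ (m - 1 + (n - 1) / 2 ≤ Fintype.card V ∧ n - 1 + m / 2 ≤ Fintype.card V)) :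
    (pathGraph m).IsContained R ∨ (cycleGraph n).IsContained Rᶜ := by
  obtain ⟨l, hl⟩ := exists_longest R
  have hl4 := four hR hB h4 hl
  by_cases hm : m ≤ l.length
  · exact Or.inl (path_contained hl.1 hm)
  · right
    rcases hN with hN | hN
    · omega
    · exact cyc_contained (main hR hl (by omega) (by omega) hn (by omega) (by omega))

end Pool.Agent.E8helper93.CR
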